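import Mathlib

/-!
Taylor bounds for `log (1 - p + p exp t)`.
-/

set_option autoImplicit false

namespace Pool.Agent.Helper30.PL

lemma anti0 {f f' : ℝ → ℝ} (hf : ∀ t, HasDerivAt f (f' t) t) (h0 : f 0 = 0)
    (hneg : ∀ t, f' t ≤ 0) : (∀ t, 0 ≤ t → f t ≤ 0) ∧ (∀ t, t ≤ 0 → 0 ≤ f t) := by
  have hA : Antitone f := by
    apply antitone_of_deriv_nonpos (fun t => (hf t).differentiableAt)
    intro t; rw [(hf t).deriv]; exact hneg t
  exact ⟨fun t ht => by rw [← h0]; exact hA ht, fun t ht => by rw [← h0]; exact hA ht⟩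

lemma par0 {f f' : ℝ → ℝ} (hf : ∀ t, HasDerivAt f (f' t) t) (h0 : f 0 = 0)
    (h1 : ∀ t, 0 ≤ t → f' t ≤ 0) (h2 : ∀ t, t ≤ 0 → 0 ≤ f' t) : ∀ t, f t ≤ 0 := by
  have hc : Continuous f := continuous_iff_continuousAt.mpr fun t => (hf t).continuousAt
  intro t
  rcases le_total 0 t with ht | ht
  · have hA : AntitoneOn f (Set.Ici 0) := by
      apply antitoneOn_of_deriv_nonpos (convex_Ici 0) hc.continuousOn
      · intro x _; exact (hf x).differentiableAt.differentiableWithinAt
      · intro x hx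
        rw [(hf x).deriv]
        rw [interior_Ici] at hx
        exact h1 x (le_of_lt hx)
    rw [← h0]; exact hA (Set.mem_Ici.mpr le_rfl) (Set.mem_Ici.mpr ht) ht
  · have hA : MonotoneOn f (Set.Iic 0) := by
      apply monotoneOn_of_deriv_nonneg (convex_Iic 0) hc.continuousOn
      · intro x _; exact (hf x).differentiableAt.differentiableWithinAt
      · intro x hx
        rw [(hf x).deriv]
        rw [interior_Iic] at hx
        exact h2 x (le_of_lt hx)
    rw [← h0]; exact hA (Set.mem_Iic.mpr ht) (Set.mem_Iic.mpr le_rfl) ht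

/-- four integrations -/
lemma four {f f1 f2 f3 f4 : ℝ → ℝ} (h1 : ∀ t, HasDerivAt f (f1 t) t)
    (h2 : ∀ t, HasDerivAt f1 (f2 t) t) (h3 : ∀ t, HasDerivAt f2 (f3 t) t)
    (h4 : ∀ t, HasDerivAt f3 (f4 t) t) (z0 : f 0 = 0) (z1 : f1 0 = 0) (z2 : f2 0 = 0)
    (z3 : f3 0 = 0) (hneg : ∀ t, f4 t ≤ 0) : ∀ t, f t ≤ 0 := by
  have a3 := anti0 h4 z3 hneg
  have a2 := par0 h3 z2 a3.1 a3.2
  have a1 := anti0 h2 z1 a2
  exact par0 h1 z0 a1.1 a1.2

section
variable {p : ℝ}

/-- the logistic function -/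
noncomputable def lg (p t : ℝ) : ℝ := p * Real.exp t / (1 - p + p * Real.exp t)

/-- the nonlinearity `log (1 - p + p e^t)` -/
noncomputable def FF (p t : ℝ) : ℝ := Real.log (1 - p + p * Real.exp t)

lemma den_pos (h0 : 0 < p) (h1 : p < 1) (t : ℝ) : 0 < 1 - p + p * Real.exp t := by
  have := Real.exp_pos t
  nlinarith [mul_pos h0 this]

lemma lg_pos (h0 : 0 < p) (h1 : p < 1) (t : ℝ) : 0 < lg p t :=
  div_pos (mul_pos h0 (Real.exp_pos t)) (den_pos h0 h1 t)

lemma lg_lt (h0 : 0 < p) (h1 : p < 1) (t : ℝ) : lg p t < 1 := by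
  unfold lg; rw [div_lt_one (den_pos h0 h1 t)]; linarith

lemma lg_zero : lg p 0 = p := by simp [lg]

lemma FF_zero : FF p 0 = 0 := by simp [FF]

lemma hasDeriv_FF (h0 : 0 < p) (h1 : p < 1) (t : ℝ) : HasDerivAt (FF p) (lg p t) t := by
  have hd : HasDerivAt (fun t => 1 - p + p * Real.exp t) (p * Real.exp t) t := by
    simpa using ((Real.hasDerivAt_exp t).const_mul p).const_add (1 - p)
  exact hd.log (den_pos h0 h1 t).ne'

lemma hasDeriv_lg (h0 : 0 < p) (h1 : p < 1) (t : ℝ) :
    HasDerivAt (lg p) (lg p t * (1 - lg p t)) t := by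
  have hd : HasDerivAt (fun t => 1 - p + p * Real.exp t) (p * Real.exp t) t := by
    simpa using ((Real.hasDerivAt_exp t).const_mul p).const_add (1 - p)
  have hn : HasDerivAt (fun t => p * Real.exp t) (p * Real.exp t) t :=
    (Real.hasDerivAt_exp t).const_mul p
  have hp := (den_pos h0 h1 t).ne'
  have := hn.div hd hp
  have e : lg p t * (1 - lg p t) = (p * Real.exp t * (1 - p + p * Real.exp t)
      - p * Real.exp t * (p * Real.exp t)) / (1 - p + p * Real.exp t) ^ 2 := by
    unfold lg; field_simp; 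
  rw [e]; exact this

/-- the remainder polynomial of degree four -/
noncomputable def P4 (p c t : ℝ) : ℝ :=
  p * t + p * (1 - p) / 2 * t ^ 2 + p * (1 - p) * (1 - 2 * p) / 6 * t ^ 3 + c * t ^ 4

lemma FF_le (h0 : 0 < p) (h1 : p < 1) (c : ℝ) (hc : 1 / 24 ≤ 24 * c) (t : ℝ) :
    FF p t ≤ P4 p c t := by
  have key := four (f := fun t => FF p t - P4 p c t)
    (f1 := fun t => lg p t - (p + p * (1 - p) * t + p * (1 - p) * (1 - 2 * p) / 2 * t ^ 2
      + 4 * c * t ^ 3))
    (f2 := fun t => lg p t * (1 - lg p t) - (p * (1 - p) + p * (1 - p) * (1 - 2 * p) * t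
      + 12 * c * t ^ 2))
    (f3 := fun t => lg p t * (1 - lg p t) * (1 - 2 * lg p t) - (p * (1 - p) * (1 - 2 * p)
      + 24 * c * t))
    (f4 := fun t => lg p t * (1 - lg p t) * (1 - 6 * (lg p t * (1 - lg p t))) - 24 * c)
    ?_ ?_ ?_ ?_ ?_ ?_ ?_ ?_ ?_ t
  · simpa using key
  · intro t
    have hP : HasDerivAt (fun t => P4 p c t) (p + p * (1 - p) * t
        + p * (1 - p) * (1 - 2 * p) / 2 * t ^ 2 + 4 * c * t ^ 3) t := by
      unfold P4
      have e1 := (hasDerivAt_id t).const_mul p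
      have e2 := (hasDerivAt_pow 2 t).const_mul (p * (1 - p) / 2)
      have e3 := (hasDerivAt_pow 3 t).const_mul (p * (1 - p) * (1 - 2 * p) / 6)
      have e4 := (hasDerivAt_pow 4 t).const_mul c
      have e := ((e1.add e2).add e3).add e4
      refine HasDerivAt.congr_deriv (HasDerivAt.congr_of_eventuallyEq e ?_) ?_
      · filter_upwards with x; simp
      · push_cast; ring
    exact (hasDeriv_FF h0 h1 t).sub hP
  · intro t
    have e1 := hasDerivAt_const t p
    have e2 := (hasDerivAt_id t).const_mul (p * (1 - p))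
    have e3 := (hasDerivAt_pow 2 t).const_mul (p * (1 - p) * (1 - 2 * p) / 2)
    have e4 := (hasDerivAt_pow 3 t).const_mul (4 * c)
    have e := (hasDeriv_lg h0 h1 t).sub (((e1.add e2).add e3).add e4)
    refine HasDerivAt.congr_deriv (HasDerivAt.congr_of_eventuallyEq e ?_) ?_
    · filter_upwards with x; simp
    · push_cast; ring
  · intro t
    have g := hasDeriv_lg h0 h1 t
    have g2 := g.mul (g.const_sub 1)
    have e1 := hasDerivAt_const t (p * (1 - p))
    have e2 := (hasDerivAt_id t).const_mul (p * (1 - p) * (1 - 2 * p))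
    have e3 := (hasDerivAt_pow 2 t).const_mul (12 * c)
    have e := g2.sub ((e1.add e2).add e3)
    refine HasDerivAt.congr_deriv (HasDerivAt.congr_of_eventuallyEq e ?_) ?_
    · filter_upwards with x; simp
    · push_cast; ring
  · intro t
    have g := hasDeriv_lg h0 h1 t
    have g2 := (g.mul (g.const_sub 1)).mul ((g.const_mul 2).const_sub 1)
    have e1 := hasDerivAt_const t (p * (1 - p) * (1 - 2 * p))
    have e2 := (hasDerivAt_id t).const_mul (24 * c)
    have e := g2.sub (e1.add e2)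
    refine HasDerivAt.congr_deriv (HasDerivAt.congr_of_eventuallyEq e ?_) ?_
    · filter_upwards with x; simp
    · simp only [Pi.mul_apply]; ring
  · simp [FF_zero, P4]
  · simp [lg_zero]
  · simp [lg_zero]
  · simp [lg_zero]
  · intro t
    nlinarith [sq_nonneg (12 * (lg p t * (1 - lg p t)) - 1)]

lemma FF_ge (h0 : 0 < p) (h1 : p < 1) (c : ℝ) (hc : 24 * c ≤ -(1 / 8)) (t : ℝ) :
    P4 p c t ≤ FF p t := by
  have key := four (f := fun t => P4 p c t - FF p t)
    (f1 := fun t => (p + p * (1 - p) * t + p * (1 - p) * (1 - 2 * p) / 2 * t ^ 2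
      + 4 * c * t ^ 3) - lg p t)
    (f2 := fun t => (p * (1 - p) + p * (1 - p) * (1 - 2 * p) * t
      + 12 * c * t ^ 2) - lg p t * (1 - lg p t))
    (f3 := fun t => (p * (1 - p) * (1 - 2 * p)
      + 24 * c * t) - lg p t * (1 - lg p t) * (1 - 2 * lg p t))
    (f4 := fun t => 24 * c - lg p t * (1 - lg p t) * (1 - 6 * (lg p t * (1 - lg p t))))
    ?_ ?_ ?_ ?_ ?_ ?_ ?_ ?_ ?_ t
  · simpa using key
  · intro t
    have hP : HasDerivAt (fun t => P4 p c t) (p + p * (1 - p) * t
        + p * (1 - p) * (1 - 2 * p) / 2 * t ^ 2 + 4 * c * t ^ 3) t := by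
      unfold P4
      have e1 := (hasDerivAt_id t).const_mul p
      have e2 := (hasDerivAt_pow 2 t).const_mul (p * (1 - p) / 2)
      have e3 := (hasDerivAt_pow 3 t).const_mul (p * (1 - p) * (1 - 2 * p) / 6)
      have e4 := (hasDerivAt_pow 4 t).const_mul c
      have e := ((e1.add e2).add e3).add e4
      refine HasDerivAt.congr_deriv (HasDerivAt.congr_of_eventuallyEq e ?_) ?_
      · filter_upwards with x; simp
      · push_cast; ring
    exact hP.sub (hasDeriv_FF h0 h1 t)
  · intro t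
    have e1 := hasDerivAt_const t p
    have e2 := (hasDerivAt_id t).const_mul (p * (1 - p))
    have e3 := (hasDerivAt_pow 2 t).const_mul (p * (1 - p) * (1 - 2 * p) / 2)
    have e4 := (hasDerivAt_pow 3 t).const_mul (4 * c)
    have e := (((e1.add e2).add e3).add e4).sub (hasDeriv_lg h0 h1 t)
    refine HasDerivAt.congr_deriv (HasDerivAt.congr_of_eventuallyEq e ?_) ?_
    · filter_upwards with x; simp
    · push_cast; ring
  · intro t
    have g := hasDeriv_lg h0 h1 t
    have g2 := g.mul (g.const_sub 1)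
    have e1 := hasDerivAt_const t (p * (1 - p))
    have e2 := (hasDerivAt_id t).const_mul (p * (1 - p) * (1 - 2 * p))
    have e3 := (hasDerivAt_pow 2 t).const_mul (12 * c)
    have e := ((e1.add e2).add e3).sub g2
    refine HasDerivAt.congr_deriv (HasDerivAt.congr_of_eventuallyEq e ?_) ?_
    · filter_upwards with x; simp
    · push_cast; ring
  · intro t
    have g := hasDeriv_lg h0 h1 t
    have g2 := (g.mul (g.const_sub 1)).mul ((g.const_mul 2).const_sub 1)
    have e1 := hasDerivAt_const t (p * (1 - p) * (1 - 2 * p))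
    have e2 := (hasDerivAt_id t).const_mul (24 * c)
    have e := (e1.add e2).sub g2
    refine HasDerivAt.congr_deriv (HasDerivAt.congr_of_eventuallyEq e ?_) ?_
    · filter_upwards with x; simp
    · simp only [Pi.mul_apply]; ring
  · simp [FF_zero, P4]
  · simp [lg_zero]
  · simp [lg_zero]
  · simp [lg_zero]
  · intro t
    have hy : lg p t * (1 - lg p t) ≤ 1 / 4 := by nlinarith [sq_nonneg (2 * lg p t - 1)]
    have hy0 : 0 < lg p t * (1 - lg p t) :=
      mul_pos (lg_pos h0 h1 t) (sub_pos.mpr (lg_lt h0 h1 t))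
    nlinarith [mul_nonneg hy0.le (sub_nonneg.mpr hy)]

/-- The fourth order expansion with bounded remainder coefficient. -/
lemma FF_expand (h0 : 0 < p) (h1 : p < 1) (t : ℝ) :
    ∃ κ : ℝ, -(521 / 100000) ≤ κ ∧ κ ≤ 174 / 100000 ∧ FF p t = P4 p κ t := by
  rcases eq_or_ne t 0 with rfl | ht
  · exact ⟨0, by norm_num, by norm_num, by simp [FF_zero, P4]⟩
  · have t4 : 0 < t ^ 4 := by positivity
    refine ⟨(FF p t - P4 p 0 t) / t ^ 4, ?_, ?_, ?_⟩
    · rw [le_div_iff₀ t4]
      have := FF_ge h0 h1 (-(521 / 100000)) (by norm_num) t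
      unfold P4 at *; linarith
    · rw [div_le_iff₀ t4]
      have := FF_le h0 h1 (174 / 100000) (by norm_num) t
      unfold P4 at *; linarith
    · have e : (FF p t - P4 p 0 t) / t ^ 4 * t ^ 4 = FF p t - P4 p 0 t :=
        div_mul_cancel₀ _ t4.ne'
      unfold P4 at *; linarith

end

end Pool.Agent.Helper30.PL
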