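import Pool.Agent.Helper30.PL.CertData

/-! Kernel computation, second form. -/

set_option autoImplicit false
set_option maxRecDepth 100000

namespace Pool.Agent.Helper30.PL

theorem runB1 : bisB 12 ⟨-1170000000, -1000000000⟩ ⟨0, 118100000⟩ ⟨-5210000, 1740000⟩ = true := by
  decide +kernel
theorem runB2 : bisB 12 ⟨-1000000000, -500000000⟩ ⟨0, 118100000⟩ ⟨-5210000, 1740000⟩ = true := by
  decide +kernel
theorem runB3 : bisB 12 ⟨-500000000, 0⟩ ⟨0, 118100000⟩ ⟨-5210000, 1740000⟩ = true := by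
  decide +kernel
theorem runB4 : bisB 12 ⟨0, 500000000⟩ ⟨0, 118100000⟩ ⟨-5210000, 1740000⟩ = true := by
  decide +kernel
theorem runB5 : bisB 12 ⟨500000000, 885000000⟩ ⟨0, 118100000⟩ ⟨-5210000, 1740000⟩ = true := by
  decide +kernel

end Pool.Agent.Helper30.PL
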