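import Pool.Agent.Helper30.PL.CertRunA
import Pool.Agent.Helper30.PL.CertRunB

/-!
The certificate for `k = 2`: the Lyapunov function and its decrement.
-/

set_option autoImplicit false

namespace Pool.Agent.Helper30.PL

/-- the Lyapunov function in the coordinates `u, v, h` -/
noncomputable def VV (s e u v h : ℝ) : ℝ :=
  u^2 - (1 + s)*u*v + v^2 + 3*h^2 +
  (((6/121) + (69/242)*s)*u^3 + ((-20/121) + (-109/242)*s)*u^2*v + ((347/1210)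
   + (183/1210)*s)*u^2*h + ((61/242) + (9/121)*s)*u*v^2 + ((-177/220) + (-137/220)*s)*u*v*h
   + ((-133/1100) + (-73/550)*s)*u*h^2 + ((-21/121) + (61/242)*s)*v^3 + ((74/121)
   + (909/2420)*s)*v^2*h + ((227/1100) + (27/550)*s)*v*h^2 + ((-3/44) + (-3/55)*s)*h^3) +
  e*(-(1/2)*u^2 + u*v + 2*u*h - v^2 - (14/5)*v*h)

/-- the decrement, reduced modulo `s² + s = 1` -/
def Nred (s a b h G e : ℝ) : ℝ :=
    (-338800)*s*a^3 + 48400*s*a^2*b + 220440*s*a^2*h + 458480*s*a^2*G + (-193600)*s*a^2*e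
    + (-144320)*s*a*b*h + 299640*s*a*b*G + (-677600)*s*a*b*e + (-8800)*s*a*h^2
    + (-387552)*s*a*h*G + 484000*s*a*h*e + (-81928)*s*a*G^2 + (-193600)*s*a*G*e
    + (-290400)*s*a*G + 62040*s*b^2*G + 48400*s*b^2*e + 30888*s*b*h*G + 1045440*s*b*h*e
    + (-108768)*s*b*G^2 + (-251680)*s*b*G*e + 96800*s*b*G + 30976*s*h^2*G + (-319440)*s*h^2*e
    + 290400*s*h^2 + 52360*s*h*G^2 + (-96800)*s*h*G*e + (-484000)*s*h*G + 24112*s*G^3
    + 242000*a^3 + (-48400)*a^2*b + (-37840)*a^2*h + (-110440)*a^2*G + 96800*a^2*e + 47080*a*b*h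
    + (-346720)*a*b*G + 290400*a*b*e + (-83600)*a*h^2 + 57024*a*h*G + (-774400)*a*h*e
    + 182776*a*G^2 + 77440*a*G*e + (-96800)*a*G + 39160*b^2*G + 96800*b^2*e + 129184*b*h*G
    + (-425920)*b*h*e + 56496*b*G^2 + 19360*b*G*e + 96800*b*G + 23848*h^2*G + 435600*h^2*e
    + (-110440)*h*G^2 + (-77440)*h*G*e + 96800*h*G + 14256*G^3 + (-145200)*G^2*e + (-387200)*G^2

lemma stage1 {s : ℝ} (hs : s^2 + s - 1 = 0) (a b h G e : ℝ) :
    96800 * (VV s e (h + (1 + 2*s)*b - a) (b + s*a) h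
      - VV s e ((1 + s)*(h + (1 + 2*s)*b - a) - (b + s*a) - G) (h + (1 + 2*s)*b - a) (-s*h - G))
      = Nred s a b h G e := by
  unfold VV Nred
  linear_combination (
    (-220800)*s^5*b^3 + 662400*s^4*a*b^2 + (-462400)*s^4*b^3 + (-272640)*s^4*b^2*h
    + (-662400)*s^3*a^2*b + 899200*s^3*a*b^2 + 545280*s^3*a*b*h + (-130400)*s^3*b^3
    + (-540960)*s^3*b^2*h + 389760*s^3*b^2*G + (-81344)*s^3*b*h^2 + 245200*s^2*a^3
    + (-396800)*s^2*a^2*b + (-272640)*s^2*a^2*h + 4000*s^2*a*b^2 + 590480*s^2*a*b*h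
    + (-779520)*s^2*a*b*G + 81344*s^2*a*h^2 + 106000*s^2*b^3 + (-209120)*s^2*b^2*h
    + 358240*s^2*b^2*G + 193600*s^2*b^2*e + (-196688)*s^2*b*h^2 + 382592*s^2*b*h*G
    + (-5392)*s^2*h^3 + (-74000)*s*a^3 + (-4400)*s*a^2*b + (-5960)*s*a^2*h + 389760*s*a^2*G
    + (-28800)*s*a*b^2 + 2840*s*a*b*h + (-231920)*s*a*b*G + (-387200)*s*a*b*e + 93912*s*a*h^2
    + (-382592)*s*a*h*G + (-45600)*s*b^3 + 7720*s*b^2*h + (-30720)*s*b^2*G + (-112968)*s*b*h^2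
    + 197104*s*b*h*G + 580800*s*b*h*e + (-198464)*s*b*G^2 + (-28648)*s*h^3 + 65168*s*h^2*G
    + 250400*a^3 + (-64400)*a^2*b + (-90800)*a^2*h + (-126320)*a^2*G + 96800*a^2*e + 32800*a*b^2
    + 56720*a*b*h + (-289400)*a*b*G + 387200*a*b*e + (-14584)*a*h^2 + 88784*a*h*G
    + (-580800)*a*h*e + 198464*a*G^2 + (-13200)*b^3 + (-41880)*b^2*h + (-44440)*b^2*G
    + 48400*b^2*e + (-1912)*b*h^2 + 71864*b*h*G + (-445280)*b*h*e + (-17408)*b*G^2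
    + 193600*b*G*e + 193600*b*G + (-17856)*h^3 + 7968*h^2*G + 242000*h^2*e + (-290400)*h^2
    + (-126128)*h*G^2) * hs

lemma stage2 {s : ℝ} (hs : s^2 + s - 1 = 0) (a b h e r G : ℝ)
    (hG : G = a^2*((2*s - 1)/2 + a*r) + e*(-a + (2*s - 1 - e)/2*a^2)) :
    Nred s a b h G e
      = formA s a r (a*b) h (a^2) + 20*(a^2)^2 + e * formB s a e r b h a := by
  subst hG
  unfold Nred formA formB evR tA11 tA12 tA22 tA13 tA23 tA33 tB11 tB12 tB22 tB13 tB23 tB33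
  simp only [hR]
  push_cast
  linear_combination (
    24112*s^2*a^6*e^3 + 72336*s^2*a^6*e^2 + 72336*s^2*a^6*e + 24112*s^2*a^6 + 72336*s*a^7*e^2*r
    + 144672*s*a^7*e*r + 72336*s*a^7*r + (-36168)*s*a^6*e^4 + (-118360)*s*a^6*e^3
    + (-174240)*s*a^6*e^2 + (-138072)*s*a^6*e + (-46024)*s*a^6 + (-72336)*s*a^5*e^3
    + (-226600)*s*a^5*e^2 + (-236192)*s*a^5*e + (-81928)*s*a^5 + (-108768)*s*a^4*b*e^2
    + (-217536)*s*a^4*b*e + (-108768)*s*a^4*b + 52360*s*a^4*h*e^2 + 104720*s*a^4*h*e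
    + 52360*s*a^4*h + 72336*a^8*e*r^2 + 72336*a^8*r^2 + (-72336)*a^7*e^3*r + (-174240)*a^7*e^2*r
    + (-203808)*a^7*e*r + (-101904)*a^7*r + 18084*a^6*e^5 + 69036*a^6*e^4 + 168740*a^6*e^3
    + (-144672)*a^6*e^2*r + 251460*a^6*e^2 + (-308528)*a^6*e*r + 200508*a^6*e + (-163856)*a^6*r
    + 66836*a^6 + (-217536)*a^5*b*e*r + (-217536)*a^5*b*r + 104720*a^5*h*e*r + 104720*a^5*h*r
    + 72336*a^5*e^4 + 256168*a^5*e^3 + 632368*a^5*e^2 + 795168*a^5*e + 346632*a^5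
    + 108768*a^4*b*e^3 + 382800*a^4*b*e^2 + 548064*a^4*b*e + 274032*a^4*b + (-52360)*a^4*h*e^3
    + (-267520)*a^4*h*e^2 + (-430320)*a^4*h*e + (-215160)*a^4*h + (-72864)*a^4*e^3
    + (-441408)*a^4*e^2 + (-297264)*a^4*e + 71280*a^4 + 217536*a^3*b*e^2 + 517176*a^3*b*e
    + 299640*a^3*b + (-104720)*a^3*h*e^2 + (-492272)*a^3*h*e + (-387552)*a^3*h
    + (-193600)*a^3*e^2 + (-484000)*a^3*e + (-290400)*a^3 + 62040*a^2*b^2*e + 62040*a^2*b^2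
    + 30888*a^2*b*h*e + 30888*a^2*b*h + (-251680)*a^2*b*e^2 + (-154880)*a^2*b*e + 96800*a^2*b
    + 30976*a^2*h^2*e + 30976*a^2*h^2 + (-96800)*a^2*h*e^2 + (-580800)*a^2*h*e + (-484000)*a^2*h) * hs

end Pool.Agent.Helper30.PL
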