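import Pool.Agent.Helper30.PL.Range
import Pool.Agent.Helper30.PL.Taylor
import Pool.Agent.Helper30.PL.CertId
import Pool.Agent.Helper32.PL.HALF
import Pool.Agent.Helper90.PL.UNST
import Pool.Agent.Helper94.PL.ROOT
import Pool.Agent.Helper56.PL.GROWTH

/-!
Convergence for `k = 2` up to the critical value.
-/

set_option autoImplicit false

open Filter Topology

namespace Pool.Agent.Helper30.PL

lemma formA_all {s a r : ℝ} (hs : Iv.mem s sI) {κ g : ℝ} (ha : -(117 / 100) ≤ a)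
    (ha' : a ≤ 885 / 1000) (hg : -(93 / 10000) ≤ g) (hg' : g ≤ 0)
    (hκ : -(521 / 100000) ≤ κ) (hκ' : κ ≤ 174 / 100000) (hr : r = g + κ * a) (x y z : ℝ) :
    0 ≤ formA s a r x y z := by
  have key : ∀ (l h rl rh : ℤ), ((l : ℝ) ≤ a * 1000000000 ∧ a * 1000000000 ≤ (h : ℝ)) →
      ((rl : ℝ) ≤ r * 1000000000 ∧ r * 1000000000 ≤ (rh : ℝ)) →
      bisA 12 ⟨l, h⟩ ⟨rl, rh⟩ = true → 0 ≤ formA s a r x y z := by
    intro l h rl rh h1 h2 h3
    refine bisA_sound hs 12 _ _ ?_ ?_ h3 x y z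
    · simpa [Iv.mem, Iv.S] using h1
    · simpa [Iv.mem, Iv.S] using h2
  rcases le_total a (-1) with h | h
  · refine key _ _ _ _ ⟨?_, ?_⟩ ⟨?_, ?_⟩ runA1 <;> push_cast <;> nlinarith
  rcases le_total a (-(1 / 2)) with h' | h'
  · refine key _ _ _ _ ⟨?_, ?_⟩ ⟨?_, ?_⟩ runA2 <;> push_cast <;> nlinarith
  rcases le_total a 0 with h2 | h2
  · refine key _ _ _ _ ⟨?_, ?_⟩ ⟨?_, ?_⟩ runA3 <;> push_cast <;> nlinarith
  rcases le_total a (1 / 2) with h3 | h3
  · refine key _ _ _ _ ⟨?_, ?_⟩ ⟨?_, ?_⟩ runA4 <;> push_cast <;> nlinarith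
  · refine key _ _ _ _ ⟨?_, ?_⟩ ⟨?_, ?_⟩ runA5 <;> push_cast <;> nlinarith

lemma formB_all {s a e κ : ℝ} (hs : Iv.mem s sI) (ha : -(117 / 100) ≤ a)
    (ha' : a ≤ 885 / 1000) (he : 0 ≤ e) (he' : e ≤ 1181 / 10000)
    (hκ : -(521 / 100000) ≤ κ) (hκ' : κ ≤ 174 / 100000) (x y z : ℝ) :
    0 ≤ formB s a e ((s - e) * (1 - (s - e)) * (1 - ((s - e) + (s - e))) / 6 + κ * a) x y z := by
  have me : Iv.mem e ⟨0, 118100000⟩ := by
    constructor <;> simp only [Iv.S] <;> push_cast <;> linarith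
  have mk : Iv.mem κ ⟨-5210000, 1740000⟩ := by
    constructor <;> simp only [Iv.S] <;> push_cast <;> linarith
  have key : ∀ (l h : ℤ), ((l : ℝ) ≤ a * 1000000000 ∧ a * 1000000000 ≤ (h : ℝ)) →
      bisB 12 ⟨l, h⟩ ⟨0, 118100000⟩ ⟨-5210000, 1740000⟩ = true →
      0 ≤ formB s a e ((s - e) * (1 - (s - e)) * (1 - ((s - e) + (s - e))) / 6 + κ * a)
        x y z := by
    intro l h h1 h3
    refine bisB_sound hs 12 _ _ _ ?_ me mk h3 x y z
    simpa [Iv.mem, Iv.S] using h1
  rcases le_total a (-1) with h | h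
  · refine key _ _ ⟨?_, ?_⟩ runB1 <;> push_cast <;> linarith
  rcases le_total a (-(1 / 2)) with h' | h'
  · refine key _ _ ⟨?_, ?_⟩ runB2 <;> push_cast <;> linarith
  rcases le_total a 0 with h2 | h2
  · refine key _ _ ⟨?_, ?_⟩ runB3 <;> push_cast <;> linarith
  rcases le_total a (1 / 2) with h3 | h3
  · refine key _ _ ⟨?_, ?_⟩ runB4 <;> push_cast <;> linarith
  · refine key _ _ ⟨?_, ?_⟩ runB5 <;> push_cast <;> linarith

/-- The Lyapunov function on a window `(a, b, c) = (y n, y (n+1), y (n+2))`. -/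
noncomputable def VW (s e a b c : ℝ) : ℝ :=
  VV s e (c + s * b) (b + s * a) (c - (1 + s) * b + a)

lemma s_mem {s : ℝ} (hs : s ^ 2 + s - 1 = 0) (h0 : 0 < s) : Iv.mem s sI := by
  constructor <;> simp only [Iv.S, sI] <;> push_cast
  · by_contra hcon; push Not at hcon; nlinarith
  · by_contra hcon; push Not at hcon; nlinarith

/-- The decrement estimate. -/
theorem decrement {s p : ℝ} (hs : s ^ 2 + s - 1 = 0) (h0 : 0 < s) (hp : 1 / 2 ≤ p) (hps : p ≤ s)
    {a : ℝ} (ha : -(117 / 100) ≤ a) (ha' : a ≤ 885 / 1000) (b c : ℝ) :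
    20 * a ^ 4 ≤ 96800 * (VW s (s - p) a b c - VW s (s - p) b c (c - FF p a)) := by
  have hsm := s_mem hs h0
  have hs1 : s ≤ 618033989 / 1000000000 := by
    have := hsm.2; simp only [Iv.S, sI] at this; push_cast at this; linarith
  have hs2 : 618033988 / 1000000000 ≤ s := by
    have := hsm.1; simp only [Iv.S, sI] at this; push_cast at this; linarith
  obtain ⟨κ, hκ, hκ', hF⟩ := FF_expand (p := p) (by linarith) (by linarith) a
  set e := s - p with he
  have he0 : 0 ≤ e := by rw [he]; linarith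
  have he1 : e ≤ 1181 / 10000 := by rw [he]; linarith
  set g := p * (1 - p) * (1 - 2 * p) / 6 with hg
  set h := c - (1 + s) * b + a with hh
  set G := FF p a - s * a with hG
  have hpe : p = s - e := by rw [he]; ring
  have hGe : G = a ^ 2 * ((2 * s - 1) / 2 + a * (g + κ * a))
      + e * (-a + (2 * s - 1 - e) / 2 * a ^ 2) := by
    rw [hG, hF, P4, hg, hpe]
    linear_combination (-(a ^ 2 / 2)) * hs
  have st1 := stage1 (e := e) hs a b h G
  have st2 := stage2 hs a b h e (g + κ * a) G hGe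
  have hA := formA_all (s := s) (a := a) (r := g + κ * a) hsm ha ha' (g := g) (κ := κ)
    (by rw [hg]; nlinarith [mul_nonneg (sub_nonneg.mpr hp) (sub_nonneg.mpr hps)])
    (by rw [hg]; nlinarith [mul_nonneg (sub_nonneg.mpr hp) (sub_nonneg.mpr hps)]) hκ hκ' rfl
    (a * b) h (a ^ 2)
  have hB := formB_all (s := s) (a := a) (e := e) (κ := κ) hsm ha ha' he0 he1 hκ hκ' b h a
  have hge : (s - e) * (1 - (s - e)) * (1 - ((s - e) + (s - e))) / 6 + κ * a = g + κ * a := by
    rw [hg, hpe]; ring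
  rw [hge] at hB
  have w1 : VW s e a b c = VV s e (h + (1 + 2 * s) * b - a) (b + s * a) h := by
    unfold VW; congr 1
    rw [hh]; ring
  have w2 : VW s e b c (c - FF p a)
      = VV s e ((1 + s) * (h + (1 + 2 * s) * b - a) - (b + s * a) - G)
        (h + (1 + 2 * s) * b - a) (-s * h - G) := by
    unfold VW; congr 1
    · rw [hh, hG]; linear_combination (-b) * hs
    · rw [hh]; ring
    · rw [hh, hG]; linear_combination (-b) * hs
  rw [w1, w2, st1, st2]
  nlinarith [mul_nonneg he0 hB]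

lemma lyap {V z : ℕ → ℝ} {c C : ℝ} (hc : 0 < c) (N : ℕ)
    (hdec : ∀ n, N ≤ n → V (n + 1) + c * (z n) ^ 4 ≤ V n) (hlow : ∀ n, N ≤ n → C ≤ V n) :
    Tendsto z atTop (𝓝 0) := by
  have hanti : Antitone (fun n => V (n + N)) := by
    apply antitone_nat_of_succ_le
    intro n
    have h1 := hdec (n + N) (Nat.le_add_left _ _)
    have h2 : 0 ≤ c * (z (n + N)) ^ 4 := by positivity
    have h3 : n + 1 + N = n + N + 1 := by ring
    simp only [h3]
    linarith
  have hbdd : BddBelow (Set.range (fun n => V (n + N))) := by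
    refine ⟨C, ?_⟩
    rintro _ ⟨n, rfl⟩
    exact hlow _ (Nat.le_add_left _ _)
  have hlim := tendsto_atTop_ciInf hanti hbdd
  set L := ⨅ n, V (n + N)
  have hlim2 : Tendsto (fun n => V (n + 1 + N)) atTop (𝓝 L) :=
    (tendsto_add_atTop_iff_nat 1).mpr hlim
  have hdiff : Tendsto (fun n => V (n + N) - V (n + 1 + N)) atTop (𝓝 0) := by
    simpa using hlim.sub hlim2
  have hz4 : Tendsto (fun n => (z (n + N)) ^ 4) atTop (𝓝 0) := by
    have hd2 : Tendsto (fun n => (V (n + N) - V (n + 1 + N)) / c) atTop (𝓝 0) := by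
      simpa using hdiff.div_const c
    refine squeeze_zero (fun n => by positivity) (fun n => ?_) hd2
    rw [le_div_iff₀ hc]
    have h1 := hdec (n + N) (Nat.le_add_left _ _)
    have h3 : n + 1 + N = n + N + 1 := by ring
    simp only [h3]
    linarith
  rw [← tendsto_add_atTop_iff_nat N]
  rw [Metric.tendsto_atTop] at hz4 ⊢
  intro ε hε
  obtain ⟨M, hM⟩ := hz4 (ε ^ 4) (by positivity)
  refine ⟨M, fun n hn => ?_⟩
  have := hM n hn
  rw [Real.dist_eq, sub_zero] at this ⊢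
  rw [abs_pow] at this
  exact lt_of_pow_lt_pow_left₀ 4 hε.le this

theorem conv_two {p : ℝ} {X : ℕ → ℝ} (hp : 1 / 2 ≤ p) (hps : p ≤ (Real.sqrt 5 - 1) / 2)
    (hX : ∀ n, 0 < X n) (hrec : ∀ n, X (n + 3) * (1 - p + p * X n) = X (n + 2)) :
    Tendsto X atTop (𝓝 1) := by
  set s : ℝ := (Real.sqrt 5 - 1) / 2 with hsdef
  have h5 : Real.sqrt 5 ^ 2 = 5 := Real.sq_sqrt (by norm_num)
  have hs : s ^ 2 + s - 1 = 0 := by rw [hsdef]; nlinarith
  have hs0 : 0 < s := by linarith
  have hsm := s_mem hs hs0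
  have hs1 : s ≤ 618033989 / 1000000000 := by
    have := hsm.2; simp only [Iv.S, sI] at this; push_cast at this; linarith
  rcases range_final hp (by linarith) hX hrec with h | ⟨hup, hlo⟩
  · exact h
  have hp1 : p < 1 := by linarith
  have hp0 : 0 < p := by linarith
  set y : ℕ → ℝ := fun n => Real.log (X n) with hy
  have hyrec : ∀ n, y (n + 3) = y (n + 2) - FF p (y n) := by
    intro n
    have h1 := hrec n
    have hpos : 0 < 1 - p + p * X n := by nlinarith [mul_pos hp0 (hX n)]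
    have h2 : Real.log (X (n + 2)) = Real.log (X (n + 3)) + Real.log (1 - p + p * X n) := by
      rw [← h1, Real.log_mul (hX _).ne' hpos.ne']
    simp only [hy, FF, Real.exp_log (hX n)]
    linarith
  have e1 : (24136 / 10000 : ℝ) ≤ Real.exp (885 / 1000) := by
    have := Real.sum_le_exp_of_nonneg (x := 885 / 1000) (by norm_num) 8
    refine le_trans ?_ this
    norm_num [Finset.sum_range_succ, Nat.factorial]
  have e2 : (10000 / 3114 : ℝ) ≤ Real.exp (117 / 100) := by
    have := Real.sum_le_exp_of_nonneg (x := 117 / 100) (by norm_num) 9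
    refine le_trans ?_ this
    norm_num [Finset.sum_range_succ, Nat.factorial]
  have hyup : ∀ᶠ n in atTop, y n ≤ 885 / 1000 := by
    filter_upwards [hup] with n hn
    simp only [hy]
    rw [Real.log_le_iff_le_exp (hX n)]
    exact hn.trans e1
  have hylo : ∀ᶠ n in atTop, -(117 / 100) ≤ y n := by
    filter_upwards [hlo] with n hn
    simp only [hy]
    rw [Real.le_log_iff_exp_le (hX n), Real.exp_neg]
    refine le_trans ?_ hn
    rw [inv_le_comm₀ (Real.exp_pos _) (by norm_num)]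
    norm_num at e2 ⊢
    linarith
  obtain ⟨N, hN⟩ := eventually_atTop.mp (hyup.and hylo)
  -- lower bound of the Lyapunov function on a compact set
  obtain ⟨C, hC⟩ : ∃ C : ℝ, ∀ a b c : ℝ, |a| ≤ 2 → |b| ≤ 2 → |c| ≤ 2 →
      C ≤ VW s (s - p) a b c := by
    have hcomp : IsCompact (Set.Icc (-2 : ℝ) 2 ×ˢ (Set.Icc (-2 : ℝ) 2 ×ˢ Set.Icc (-2 : ℝ) 2)) :=
      isCompact_Icc.prod (isCompact_Icc.prod isCompact_Icc)
    have hcont : Continuous (fun w : ℝ × ℝ × ℝ => VW s (s - p) w.1 w.2.1 w.2.2) := by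
      unfold VW VV; fun_prop
    obtain ⟨C, hC⟩ := (hcomp.image hcont).bddBelow
    refine ⟨C, fun a b c ha hb hc => hC ⟨(a, b, c), ?_, rfl⟩⟩
    exact ⟨abs_le.mp ha, abs_le.mp hb, abs_le.mp hc⟩
  have hab : ∀ n, N ≤ n → |y n| ≤ 2 := by
    intro n hn
    have := hN n hn
    rw [abs_le]; constructor <;> linarith [this.1, this.2]
  have hz : Tendsto y atTop (𝓝 0) := by
    refine lyap (V := fun n => VW s (s - p) (y n) (y (n + 1)) (y (n + 2)))
      (c := 20 / 96800) (C := C) (by norm_num) N ?_ ?_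
    · intro n hn
      have hd := decrement hs hs0 hp hps (a := y n) (hN n hn).2 (hN n hn).1 (y (n + 1))
        (y (n + 2))
      rw [← hyrec n] at hd
      simp only [show n + 1 + 1 = n + 2 from rfl, show n + 1 + 2 = n + 3 from rfl]
      linarith
    · intro n hn
      exact hC _ _ _ (hab n hn) (hab (n + 1) (by omega)) (hab (n + 2) (by omega))
  have hexp : Tendsto (fun n => Real.exp (y n)) atTop (𝓝 (Real.exp 0)) :=
    (Real.continuous_exp.tendsto 0).comp hz
  rw [Real.exp_zero] at hexp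
  refine hexp.congr fun n => ?_
  simp only [hy, Real.exp_log (hX n)]

end Pool.Agent.Helper30.PL
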