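import Pool.Agent.Helper30.PL.Iv

/-!
The certificate for `k = 2`: coefficients of the quadratic forms, and the verified computation.
A nested list stands for `∑ a^i r^l e^j (X + Y s)` (in this order), where `s = (√5 - 1)/2`.
-/

set_option autoImplicit false

namespace Pool.Agent.Helper30.PL

/-- coefficient list -/
def tA11 : List (List (List (ℤ × ℤ))) :=
  [[[(42460, -53900)]], [[], [(39160, 62040)]]]

/-- coefficient list -/
def tA12 : List (List (List (ℤ × ℤ))) :=
  [[[(23540, -72160)]], [[(-16852, 41426)]], [[], [(64592, 15444)]]]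

/-- coefficient list -/
def tA22 : List (List (List (ℤ × ℤ))) :=
  [[[(0, 290400)]], [[(-83600, -8800)]], [[(19052, -22616)]], [[], [(23848, 30976)]]]

/-- coefficient list -/
def tA13 : List (List (List (ℤ × ℤ))) :=
  [[[(236500, -398090)], [(48400, 48400)]], [[(144078, -233244)], [(-173360, 149820)]], [[],
   [(-137016, 219648)]], [[], [], [(28248, -54384)]]]

/-- coefficient list -/
def tA23 : List (List (List (ℤ × ℤ))) :=
  [[[(-285120, 521620)]], [[(-208032, 319176)], [(48400, -242000)]], [[(-121385, 195525)],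
   [(28512, -193776)]], [[], [(107580, -188980)]], [[], [], [(-55220, 26180)]]]

/-- coefficient list -/
def tA33 : List (List (List (ℤ × ℤ))) :=
  [[[(29700, -23760)], [(-96800, -290400)]], [[(392326, -631818)], [(276760, -315920)]],
   [[(65054, -105182)], [(-346632, 611336)], [(-387200, 0)]], [[], [(-91212, 149556)],
   [(182776, -81928)]], [[], [], [(50952, -65736)]], [[], [], [], [(14256, 24112)]]]

/-- coefficient list -/
def tB11 : List (List (List (ℤ × ℤ))) :=
  [[[(96800, 48400)]], [[(-39160, -62040)]], [[(42460, -53900), (-19580, -31020)]]]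

/-- coefficient list -/
def tB12 : List (List (List (ℤ × ℤ))) :=
  [[[(-212960, 522720)]], [[(-64592, -15444)]], [[(-16852, 41426), (-32296, -7722)]]]

/-- coefficient list -/
def tB22 : List (List (List (ℤ × ℤ))) :=
  [[[(435600, -319440)]], [[(-23848, -30976)]], [[(19052, -22616), (-11924, -15488)]]]

/-- coefficient list -/
def tB13 : List (List (List (ℤ × ℤ))) :=
  [[[(96800, -387200), (-9680, 125840)]], [[(66880, 24420), (-126632, 119856),
   (-4840, 62920)]], [[(373516, -617738), (223696, -294558), (28248, -54384)],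
   [(9680, -125840)]], [[(288156, -466488), (212586, -343068), (68508, -109824),
   (7062, -13596)], [(-56496, 108768)]], [[], [(-137016, 219648), (-28248, 54384)]]]

/-- coefficient list -/
def tB23 : List (List (List (ℤ × ℤ))) :=
  [[[(-435600, 484000), (38720, 48400)]], [[(-323752, 639056), (-108460, 181060),
   (19360, 24200)]], [[(-315612, 508156), (-121836, 285868), (-55220, 26180)],
   [(-38720, -48400)]], [[(-242770, 391050), (-175175, 290015), (-53790, 94490),
   (-13805, 6545)], [(110440, -52360)]], [[], [(107580, -188980), (55220, -26180)]]]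

/-- coefficient list -/
def tB33 : List (List (List (ℤ × ℤ))) :=
  [[[(193600, 96800), (-464640, 193600), (-145200, 0)]], [[(-751080, 1022560),
   (-533544, 1495912), (-585376, 363088), (-145200, 0)]], [[(-289168, 429704),
   (-587796, 836088), (-213972, 675136), (-190784, 109032), (-36300, 0)], [(851840, -193600),
   (290400, 0)]], [[(875864, -1413192), (748066, -1236598), (315480, -520960), (96646, -86218),
   (-10692, -18084)], [(166848, -900944), (575168, -218064), (145200, 0)]],
   [[(195162, -315546), (240768, -390324), (156266, -254738), (58344, -91212), (12738, -16434),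
   (-1782, -3014)], [(-448536, 742808), (-284680, 213400), (42768, 72336)], [(-145200, 0)]],
   [[], [(-182424, 299112), (-142164, 215292), (-50952, 65736), (10692, 18084)],
   [(-42768, -72336)]], [[], [], [(50952, -65736), (-21384, -36168)]]]

/-- Horner evaluation over `ℝ` -/
noncomputable def hR {α : Type} (f : α → ℝ) (x : ℝ) : List α → ℝ
  | [] => 0
  | c :: t => f c + x * hR f x t

/-- Horner evaluation with intervals -/
def hI {α : Type} (f : α → Iv) (X : Iv) : List α → Iv
  | [] => ⟨0, 0⟩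
  | [c] => f c
  | c :: c' :: t => Iv.add (f c) (Iv.mul X (hI f X (c' :: t)))

lemma mem_hI {α : Type} {f : α → ℝ} {F : α → Iv} {x : ℝ} {X : Iv} (hx : Iv.mem x X)
    (hf : ∀ c, Iv.mem (f c) (F c)) : ∀ l : List α, Iv.mem (hR f x l) (hI F X l)
  | [] => by simp [hR, hI, Iv.mem]
  | [c] => by simpa [hR, hI] using hf c
  | c :: c' :: t => by
    rw [hR, hI]
    exact Iv.mem_add (hf c) (Iv.mem_mul hx (mem_hI hx hf (c' :: t)))

/-- real value of a nested coefficient list -/
noncomputable def evR (s a e r : ℝ) (t : List (List (List (ℤ × ℤ)))) : ℝ :=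
  hR (hR (hR (fun c : ℤ × ℤ => (c.1 : ℝ) + (c.2 : ℝ) * s) e) r) a t

/-- interval for `s` -/
def sI : Iv := ⟨618033988, 618033989⟩

/-- interval value of a nested coefficient list -/
def evI (A E R : Iv) (t : List (List (List (ℤ × ℤ)))) : Iv :=
  hI (hI (hI (fun c : ℤ × ℤ => Iv.add (Iv.const c.1) (Iv.smul c.2 sI)) E) R) A t

lemma mem_evI {s a e r : ℝ} {A E R : Iv} (hs : Iv.mem s sI) (ha : Iv.mem a A) (he : Iv.mem e E)
    (hr : Iv.mem r R) (t : List (List (List (ℤ × ℤ)))) : Iv.mem (evR s a e r t) (evI A E R t) := by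
  have h1 : ∀ c : ℤ × ℤ, Iv.mem ((c.1 : ℝ) + (c.2 : ℝ) * s)
      (Iv.add (Iv.const c.1) (Iv.smul c.2 sI)) := fun c =>
    Iv.mem_add (Iv.mem_const c.1) (Iv.mem_smul c.2 hs)
  unfold evR evI
  exact mem_hI ha (fun c => mem_hI hr (fun c => mem_hI he h1 c) c) t

/-- interval for `r = g3 + κ a`, `g3 = p (1-p) (1-2p)/6`, `p = s - e` -/
def rI (A E K : Iv) : Iv :=
  let P := Iv.sub sI E
  let T := Iv.mul (Iv.mul P (Iv.sub (Iv.const 1) P)) (Iv.sub (Iv.const 1) (Iv.add P P))
  Iv.add ⟨T.l / 6, -((-T.h) / 6)⟩ (Iv.mul K A)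

/-- the zero interval -/
def zI : Iv := ⟨0, 0⟩

/-- the test on a box, first form -/
def testA (A R : Iv) : Bool :=
  pdTest (evI A zI R tA11) (evI A zI R tA12) (evI A zI R tA22) (evI A zI R tA13)
    (evI A zI R tA23) (Iv.sub (evI A zI R tA33) (Iv.const 20))

/-- the test on a box, second form -/
def testB (A E K : Iv) : Bool :=
  pdTest (evI A E (rI A E K) tB11) (evI A E (rI A E K) tB12) (evI A E (rI A E K) tB22)
    (evI A E (rI A E K) tB13) (evI A E (rI A E K) tB23) (evI A E (rI A E K) tB33)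

/-- bisection, first form -/
def bisA : ℕ → Iv → Iv → Bool
  | 0, A, R => testA A R
  | n + 1, A, R =>
    if testA A R then true else
      if 20 * (R.h - R.l) ≤ A.h - A.l then
        bisA n ⟨A.l, (A.l + A.h) / 2⟩ R && bisA n ⟨(A.l + A.h) / 2, A.h⟩ R
      else
        bisA n A ⟨R.l, (R.l + R.h) / 2⟩ && bisA n A ⟨(R.l + R.h) / 2, R.h⟩

/-- bisection, second form -/
def bisB : ℕ → Iv → Iv → Iv → Bool
  | 0, A, E, K => testB A E K
  | n + 1, A, E, K =>
    if testB A E K then true else
      if E.h - E.l ≤ A.h - A.l ∧ 5 * (K.h - K.l) ≤ A.h - A.l then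
        bisB n ⟨A.l, (A.l + A.h) / 2⟩ E K && bisB n ⟨(A.l + A.h) / 2, A.h⟩ E K
      else if 5 * (K.h - K.l) ≤ E.h - E.l then
        bisB n A ⟨E.l, (E.l + E.h) / 2⟩ K && bisB n A ⟨(E.l + E.h) / 2, E.h⟩ K
      else
        bisB n A E ⟨K.l, (K.l + K.h) / 2⟩ && bisB n A E ⟨(K.l + K.h) / 2, K.h⟩

/-- the form `A` -/
noncomputable def formA (s a r x y z : ℝ) : ℝ :=
  evR s a 0 r tA11 * x ^ 2 + 2 * evR s a 0 r tA12 * x * y + evR s a 0 r tA22 * y ^ 2
    + 2 * evR s a 0 r tA13 * x * z + 2 * evR s a 0 r tA23 * y * z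
    + (evR s a 0 r tA33 - 20) * z ^ 2

/-- the form `B` -/
noncomputable def formB (s a e r x y z : ℝ) : ℝ :=
  evR s a e r tB11 * x ^ 2 + 2 * evR s a e r tB12 * x * y + evR s a e r tB22 * y ^ 2
    + 2 * evR s a e r tB13 * x * z + 2 * evR s a e r tB23 * y * z
    + evR s a e r tB33 * z ^ 2

lemma testA_sound {s a r : ℝ} {A R : Iv} (hs : Iv.mem s sI) (ha : Iv.mem a A)
    (hr : Iv.mem r R) (h : testA A R = true) (x y z : ℝ) : 0 ≤ formA s a r x y z := by
  have hz : Iv.mem (0 : ℝ) zI := by simp [Iv.mem, zI]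
  have m := fun t => mem_evI hs ha hz hr t
  have m33 : Iv.mem (evR s a 0 r tA33 - 20) (Iv.sub (evI A zI R tA33) (Iv.const 20)) := by
    have := Iv.mem_sub (m tA33) (Iv.mem_const 20)
    simpa using this
  exact pdTest_sound (m tA11) (m tA12) (m tA22) (m tA13) (m tA23) m33 h x y z

lemma mem_rI {s a e k : ℝ} {A E K : Iv} (hs : Iv.mem s sI) (ha : Iv.mem a A) (he : Iv.mem e E)
    (hk : Iv.mem k K) :
    Iv.mem ((s - e) * (1 - (s - e)) * (1 - ((s - e) + (s - e))) / 6 + k * a) (rI A E K) := by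
  have h1 := Iv.mem_sub hs he
  have one : Iv.mem (1 : ℝ) (Iv.const 1) := by simpa using Iv.mem_const 1
  have hT := Iv.mem_mul (Iv.mem_mul h1 (Iv.mem_sub one h1))
    (Iv.mem_sub one (Iv.mem_add h1 h1))
  refine Iv.mem_add ?_ (Iv.mem_mul hk ha)
  have six : ∀ n : ℤ, ((n / 6 : ℤ) : ℝ) ≤ (n : ℝ) / 6 := by
    intro n
    have : (n / 6) * 6 ≤ n := Int.ediv_mul_le n (by norm_num)
    have h2 : ((n / 6 : ℤ) : ℝ) * 6 ≤ n := by exact_mod_cast this
    linarith
  constructor
  · refine (six _).trans ?_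
    have := hT.1
    linarith
  · have h3 := six (-(((sI.sub E).mul ((Iv.const 1).sub (sI.sub E))).mul
      ((Iv.const 1).sub ((sI.sub E).add (sI.sub E)))).h)
    have h4 := hT.2
    push_cast at h3 ⊢
    linarith

lemma testB_sound {s a e k : ℝ} {A E K : Iv} (hs : Iv.mem s sI) (ha : Iv.mem a A)
    (he : Iv.mem e E) (hk : Iv.mem k K) (h : testB A E K = true) (x y z : ℝ) :
    0 ≤ formB s a e ((s - e) * (1 - (s - e)) * (1 - ((s - e) + (s - e))) / 6 + k * a) x y z := by
  have hr := mem_rI hs ha he hk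
  have m := fun t => mem_evI hs ha he hr t
  exact pdTest_sound (m tB11) (m tB12) (m tB22) (m tB13) (m tB23) (m tB33) h x y z

lemma mem_split {x : ℝ} {I : Iv} (hx : Iv.mem x I) (m : ℤ) :
    Iv.mem x ⟨I.l, m⟩ ∨ Iv.mem x ⟨m, I.h⟩ := by
  rcases le_total (x * (Iv.S : ℤ)) (m : ℝ) with h | h
  · exact Or.inl ⟨hx.1, h⟩
  · exact Or.inr ⟨h, hx.2⟩

lemma bisA_sound {s a r : ℝ} (hs : Iv.mem s sI) : ∀ (n : ℕ) (A R : Iv), Iv.mem a A →
    Iv.mem r R → bisA n A R = true → ∀ x y z : ℝ, 0 ≤ formA s a r x y z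
  | 0, A, R, ha, hr, h => testA_sound hs ha hr h
  | n + 1, A, R, ha, hr, h => by
    rw [bisA] at h
    split_ifs at h with h1 h2
    · exact testA_sound hs ha hr h1
    · rw [Bool.and_eq_true] at h
      rcases mem_split ha ((A.l + A.h) / 2) with h' | h'
      · exact bisA_sound hs n _ _ h' hr h.1
      · exact bisA_sound hs n _ _ h' hr h.2
    · rw [Bool.and_eq_true] at h
      rcases mem_split hr ((R.l + R.h) / 2) with h' | h'
      · exact bisA_sound hs n _ _ ha h' h.1
      · exact bisA_sound hs n _ _ ha h' h.2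

lemma bisB_sound {s a e k : ℝ} (hs : Iv.mem s sI) : ∀ (n : ℕ) (A E K : Iv), Iv.mem a A →
    Iv.mem e E → Iv.mem k K → bisB n A E K = true → ∀ x y z : ℝ,
    0 ≤ formB s a e ((s - e) * (1 - (s - e)) * (1 - ((s - e) + (s - e))) / 6 + k * a) x y z
  | 0, A, E, K, ha, he, hk, h => testB_sound hs ha he hk h
  | n + 1, A, E, K, ha, he, hk, h => by
    rw [bisB] at h
    split_ifs at h with h1 h2 h3
    · exact testB_sound hs ha he hk h1
    · rw [Bool.and_eq_true] at h
      rcases mem_split ha ((A.l + A.h) / 2) with h' | h'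
      · exact bisB_sound hs n _ _ _ h' he hk h.1
      · exact bisB_sound hs n _ _ _ h' he hk h.2
    · rw [Bool.and_eq_true] at h
      rcases mem_split he ((E.l + E.h) / 2) with h' | h'
      · exact bisB_sound hs n _ _ _ ha h' hk h.1
      · exact bisB_sound hs n _ _ _ ha h' hk h.2
    · rw [Bool.and_eq_true] at h
      rcases mem_split hk ((K.l + K.h) / 2) with h' | h'
      · exact bisB_sound hs n _ _ _ ha he h' h.1
      · exact bisB_sound hs n _ _ _ ha he h' h.2

end Pool.Agent.Helper30.PL
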