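import Pool.Agent.Helper30.PL.CertData

/-! Kernel computation, first form. -/

set_option autoImplicit false
set_option maxRecDepth 100000

namespace Pool.Agent.Helper30.PL

theorem runA1 : bisA 12 ⟨-1170000000, -1000000000⟩ ⟨-11400000, 6100000⟩ = true := by
  decide +kernel
theorem runA2 : bisA 12 ⟨-1000000000, -500000000⟩ ⟨-11100000, 5300000⟩ = true := by
  decide +kernel
theorem runA3 : bisA 12 ⟨-500000000, 0⟩ ⟨-10200000, 2700000⟩ = true := by
  decide +kernel
theorem runA4 : bisA 12 ⟨0, 500000000⟩ ⟨-12000000, 900000⟩ = true := by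
  decide +kernel
theorem runA5 : bisA 12 ⟨500000000, 885000000⟩ ⟨-14000000, 1600000⟩ = true := by
  decide +kernel

end Pool.Agent.Helper30.PL
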