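import Pool.Agent.Helper30.PL.Stab

/-!
MP_b4564f_an: the question for the delay `k = 2`.
-/

set_option autoImplicit false

open Filter Topology

namespace Pool.Agent.Helper30.PL.DelayTwo

/-- `x` solves Pielou's equation with delay `k`, the initial values being `x 0, …, x k`. -/
def Solves (α β : ℝ) (k : ℕ) (x : ℕ → ℝ) : Prop :=
  ∀ n, x (n + k + 1) = α * x (n + k) / (1 + β * x n)

/-- The equilibrium `(α - 1)/β` is Lyapunov stable (all initial values positive). -/
def Stable (α β : ℝ) (k : ℕ) : Prop :=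
  ∀ ε : ℝ, 0 < ε → ∃ δ : ℝ, 0 < δ ∧ ∀ x : ℕ → ℝ, Solves α β k x → (∀ i ≤ k, 0 < x i) →
    (∀ i ≤ k, |x i - (α - 1) / β| < δ) → ∀ n, |x n - (α - 1) / β| < ε

/-- Solutions starting close to the equilibrium converge to it. -/
def LocallyAttracting (α β : ℝ) (k : ℕ) : Prop :=
  ∃ γ : ℝ, 0 < γ ∧ ∀ x : ℕ → ℝ, Solves α β k x → (∀ i ≤ k, 0 < x i) →
    (∀ i ≤ k, |x i - (α - 1) / β| < γ) → Tendsto x atTop (𝓝 ((α - 1) / β))

/-- All positive solutions (`x 0, …, x (k-1) ≥ 0`, `x k > 0`) converge to the equilibrium. -/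
def GloballyAttracting (α β : ℝ) (k : ℕ) : Prop :=
  ∀ x : ℕ → ℝ, Solves α β k x → (∀ i < k, 0 ≤ x i) → 0 < x k →
    Tendsto x atTop (𝓝 ((α - 1) / β))

lemma pos_all {α β : ℝ} (hα : 1 < α) (hβ : 0 < β) {x : ℕ → ℝ} (hx : Solves α β 2 x)
    (h0 : 0 < x 0) (h1 : 0 < x 1) (h2 : 0 < x 2) : ∀ n, 0 < x n := by
  have key : ∀ n, 0 < x n ∧ 0 < x (n + 1) ∧ 0 < x (n + 2) := by
    intro n
    induction n with
    | zero => exact ⟨h0, h1, h2⟩
    | succ n ih =>
      refine ⟨ih.2.1, ih.2.2, ?_⟩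
      rw [show n + 1 + 2 = n + 2 + 1 by ring, hx n]
      have := ih.1
      have := ih.2.2
      positivity
  exact fun n => (key n).1

lemma normalise {α β : ℝ} (hα : 1 < α) (hβ : 0 < β) {x : ℕ → ℝ} (hx : Solves α β 2 x)
    (hpos : ∀ n, 0 < x n) (n : ℕ) :
    (β / (α - 1) * x (n + 3)) * (1 - (α - 1) / α + (α - 1) / α * (β / (α - 1) * x n))
      = β / (α - 1) * x (n + 2) := by
  have h := hx n
  have ha : α - 1 ≠ 0 := by linarith
  have ha' : α ≠ 0 := by linarith
  have hd : 1 + β * x n ≠ 0 := by have := hpos n; positivity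
  have e : x (n + 3) * (1 + β * x n) = α * x (n + 2) := by
    rw [show n + 3 = n + 2 + 1 by ring, h, div_mul_cancel₀ _ hd]
  field_simp
  linear_combination e

lemma sqrt5 : Real.sqrt 5 ^ 2 = 5 := Real.sq_sqrt (by norm_num)

lemma crit {α : ℝ} (hα : 1 < α) :
    (α - 1) / α ≤ (Real.sqrt 5 - 1) / 2 ↔ α ≤ (3 + Real.sqrt 5) / 2 := by
  have h5 := sqrt5
  have h0 : 0 < Real.sqrt 5 := by positivity
  have h3 : Real.sqrt 5 < 3 := by nlinarith
  rw [div_le_iff₀ (by linarith)]
  constructor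
  · intro h
    nlinarith
  · intro h
    nlinarith

lemma conv_pos {α β : ℝ} (hα : 1 < α) (hβ : 0 < β) (hc : α ≤ (3 + Real.sqrt 5) / 2) {x : ℕ → ℝ}
    (hx : Solves α β 2 x) (hpos : ∀ n, 0 < x n) : Tendsto x atTop (𝓝 ((α - 1) / β)) := by
  have hb : 0 < β / (α - 1) := div_pos hβ (by linarith)
  have hX : ∀ n, 0 < β / (α - 1) * x n := fun n => mul_pos hb (hpos n)
  have hrec := normalise hα hβ hx hpos
  have hp0 : 0 < (α - 1) / α := div_pos (by linarith) (by linarith)
  have hlim : Tendsto (fun n => β / (α - 1) * x n) atTop (𝓝 1) := by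
    rcases le_total ((α - 1) / α) (1 / 2) with h | h
    · exact Pool.Agent.Helper32.PL.half _ _ hp0 h hX hrec
    · exact Pool.Agent.Helper30.PL.conv_two h ((crit hα).mpr hc) hX hrec
  have := hlim.const_mul ((α - 1) / β)
  rw [mul_one] at this
  refine this.congr fun n => ?_
  have ha : α - 1 ≠ 0 := by linarith
  field_simp

lemma conv_all {α β : ℝ} (hα : 1 < α) (hβ : 0 < β) (hc : α ≤ (3 + Real.sqrt 5) / 2) :
    GloballyAttracting α β 2 := by
  intro x hx hnn h2
  have h0 : 0 ≤ x 0 := hnn 0 (by norm_num)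
  have h1 : 0 ≤ x 1 := hnn 1 (by norm_num)
  have h3 : 0 < x 3 := by rw [show (3 : ℕ) = 0 + 2 + 1 by norm_num, hx 0]; positivity
  have h4 : 0 < x 4 := by rw [show (4 : ℕ) = 1 + 2 + 1 by norm_num, hx 1]; positivity
  have hx' : Solves α β 2 (fun n => x (n + 2)) := fun n => by
    have := hx (n + 2)
    simpa [add_assoc, add_comm, add_left_comm] using this
  have hp := pos_all hα hβ hx' h2 h3 h4
  have := conv_pos hα hβ hc hx' hp
  exact (tendsto_add_atTop_iff_nat 2).mp this

lemma two_cos : 2 * Real.cos (((2 : ℕ) : ℝ) * Real.pi / (2 * ((2 : ℕ) : ℝ) + 1))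
    = (Real.sqrt 5 - 1) / 2 := by
  have h5 := sqrt5
  have e : ((2 : ℕ) : ℝ) * Real.pi / (2 * ((2 : ℕ) : ℝ) + 1) = 2 * (Real.pi / 5) := by
    push_cast; ring
  rw [e, Real.cos_two_mul, Real.cos_pi_div_five]
  nlinarith

lemma not_stable {α β : ℝ} (hα : 1 < α) (hβ : 0 < β) (hc : (3 + Real.sqrt 5) / 2 < α) :
    ¬ Stable α β 2 := by
  intro hst
  have hlt : 2 * Real.cos (((2 : ℕ) : ℝ) * Real.pi / (2 * ((2 : ℕ) : ℝ) + 1)) < (α - 1) / α := by
    rw [two_cos]
    by_contra hcon
    exact absurd ((crit hα).mp (not_lt.mp hcon)) (not_le.mpr hc)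
  obtain ⟨ε, hε, h⟩ := Pool.Agent.Helper90.PL.unstable Pool.Agent.Helper94.PL.root
    Pool.Agent.Helper56.PL.growth α β 2 hα hβ hlt
  obtain ⟨δ, hδ, hst'⟩ := hst ε hε
  obtain ⟨x, hx, hpos, hclose, n, hn⟩ := h δ hδ
  exact absurd (hst' x hx hpos hclose n) (not_lt.mpr hn)

lemma stable_crit {α β : ℝ} (hα : 1 < α) (hβ : 0 < β) (h2 : 2 ≤ α)
    (hc : α ≤ (3 + Real.sqrt 5) / 2) : Stable α β 2 := by
  intro ε hε
  have ha : 0 < α - 1 := by linarith
  have hxb : 0 < (α - 1) / β := div_pos ha hβ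
  set xb := (α - 1) / β with hxb_def
  have h5 := sqrt5
  set s : ℝ := (Real.sqrt 5 - 1) / 2 with hs_def
  have h50 : 0 < Real.sqrt 5 := by positivity
  have hs : s ^ 2 + s - 1 = 0 := by rw [hs_def]; nlinarith
  have hs0 : 0 < s := by rw [hs_def]; nlinarith
  have hp : 1 / 2 ≤ (α - 1) / α := by rw [le_div_iff₀ (by linarith)]; linarith
  -- continuity of the exponential at 0
  have hexp := Metric.continuous_iff.mp Real.continuous_exp 0 (ε / xb) (div_pos hε hxb)
  obtain ⟨η, hη, hexp⟩ := hexp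
  obtain ⟨δ1, hδ1, hst⟩ := Pool.Agent.Helper30.PL.stab_log hs hs0 hp ((crit hα).mpr hc) hη
  -- continuity of the logarithm at 1
  have hlog : ContinuousAt Real.log 1 := Real.continuousAt_log (by norm_num)
  rw [Metric.continuousAt_iff] at hlog
  obtain ⟨δ2, hδ2, hlog⟩ := hlog δ1 hδ1
  refine ⟨δ2 * xb, mul_pos hδ2 hxb, fun x hx hpos hclose n => ?_⟩
  have hposn := pos_all hα hβ hx (hpos 0 (by norm_num)) (hpos 1 (by norm_num))
    (hpos 2 (by norm_num))
  have hb : 0 < β / (α - 1) := div_pos hβ ha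
  have hbx : β / (α - 1) * xb = 1 := by rw [hxb_def]; field_simp
  have hsub : ∀ t : ℝ, β / (α - 1) * t - 1 = β / (α - 1) * (t - xb) := by
    intro t; rw [mul_sub, hbx]
  have hX : ∀ n, 0 < β / (α - 1) * x n := fun n => mul_pos hb (hposn n)
  have hyrec : ∀ n, Real.log (β / (α - 1) * x (n + 3)) = Real.log (β / (α - 1) * x (n + 2))
      - Pool.Agent.Helper30.PL.FF ((α - 1) / α) (Real.log (β / (α - 1) * x n)) := by
    intro n
    have h1 := normalise hα hβ hx hposn n
    have hpp : 0 < 1 - (α - 1) / α + (α - 1) / α * (β / (α - 1) * x n) := by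
      have e1 : 0 < 1 - (α - 1) / α := by
        rw [sub_pos, div_lt_one (by linarith)]; linarith
      have e2 : 0 < (α - 1) / α * (β / (α - 1) * x n) :=
        mul_pos (div_pos ha (by linarith)) (hX n)
      linarith
    have h2 : Real.log (β / (α - 1) * x (n + 2)) = Real.log (β / (α - 1) * x (n + 3))
        + Real.log (1 - (α - 1) / α + (α - 1) / α * (β / (α - 1) * x n)) := by
      rw [← h1, Real.log_mul (hX _).ne' hpp.ne']
    simp only [Pool.Agent.Helper30.PL.FF, Real.exp_log (hX n)]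
    linarith
  have hinit : ∀ i ≤ 2, |Real.log (β / (α - 1) * x i)| < δ1 := by
    intro i hi
    have h1 : dist (β / (α - 1) * x i) 1 < δ2 := by
      rw [Real.dist_eq, hsub, abs_mul, abs_of_pos hb]
      have := hclose i hi
      calc β / (α - 1) * |x i - xb| < β / (α - 1) * (δ2 * xb) := by gcongr
        _ = δ2 := by rw [← mul_comm xb, ← mul_assoc, hbx, one_mul]
    have := hlog h1
    rwa [Real.dist_eq, Real.log_one, sub_zero] at this
  have hyn := hst (fun n => Real.log (β / (α - 1) * x n)) hyrec hinit n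
  have h3 := hexp (Real.log (β / (α - 1) * x n)) (by rwa [Real.dist_eq, sub_zero])
  rw [Real.dist_eq, Real.exp_zero, Real.exp_log (hX n), hsub, abs_mul,
    abs_of_pos hb, lt_div_iff₀ hxb] at h3
  calc |x n - xb| = (β / (α - 1) * xb) * |x n - xb| := by rw [hbx, one_mul]
    _ = β / (α - 1) * |x n - xb| * xb := by ring
    _ < ε := h3

/-- **The question for delay `k = 2`.** Local asymptotic stability of the equilibrium implies that
every positive solution converges to it (first part, this is the frozen statement for `k = 2`);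
more precisely every positive solution converges whenever `α ≤ (3 + √5)/2`, the critical value
included; for `2 ≤ α ≤ (3 + √5)/2` the equilibrium is moreover Lyapunov stable (so globally
asymptotically stable, also at the critical value), and for `α > (3 + √5)/2` it is not Lyapunov
stable. -/
theorem result (α β : ℝ) (hα : 1 < α) (hβ : 0 < β) :
    (Stable α β 2 ∧ LocallyAttracting α β 2 → GloballyAttracting α β 2) ∧
    (α ≤ (3 + Real.sqrt 5) / 2 → GloballyAttracting α β 2) ∧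
    (2 ≤ α → α ≤ (3 + Real.sqrt 5) / 2 → Stable α β 2) ∧
    ((3 + Real.sqrt 5) / 2 < α → ¬ Stable α β 2) := by
  refine ⟨fun h => ?_, conv_all hα hβ, stable_crit hα hβ, not_stable hα hβ⟩
  apply conv_all hα hβ
  by_contra hcon
  exact not_stable hα hβ (not_le.mp hcon) h.1

end Pool.Agent.Helper30.PL.DelayTwo
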