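import Mathlib

/-!
MP_b4564f_an (Pielou's delay logistic equation), goals of the packets posted by helper30.
Notation: p = (alpha - 1)/alpha in (0,1), q = 1 - p, X = x * beta/(alpha - 1) satisfies
X (n+k+1) = X (n+k) / (q + p X n).
-/

set_option autoImplicit false

open Filter Topology

namespace Pool.Agent.Helper30.PL

/-- PACKET ROOT. For `2 cos (k pi/(2k+1)) < p < 1` the characteristic polynomial
`z^(k+1) - z^k + p` has a zero outside the closed unit disk.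

Proof. `k = 0`: `2 cos 0 = 2 > 1 > p`, impossible. Let `k ≥ 1`, `θ = π/(2k+1)`; note
`2 cos (k π/(2k+1)) = 2 sin (θ/2)` (as `kπ/(2k+1) = π/2 - θ/2`). Let
`Φ ψ = sin (k ψ)^k * sin ψ - p * sin ((k+1) ψ)^(k+1)`, continuous.
At `ψ = θ`: `kθ + (k+1)θ = π`, so `sin (kθ) = sin ((k+1)θ) = cos (θ/2) =: S > 0`, and
`sin θ = 2 sin (θ/2) cos (θ/2)`, so `Φ θ = S^(k+1) (2 sin (θ/2) - p) < 0`.
At `ψ = π/(k+1)`: `sin ((k+1)ψ) = 0` and `sin (kψ) = sin (π - ψ) = sin ψ > 0`, so `Φ > 0`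
(`k + 1 ≥ 2`, so `ψ ≤ π/2`). By the intermediate value theorem `Φ ψ = 0` for some
`θ < ψ < π/(k+1)`. There `sin ψ > 0`, `s := sin ((k+1)ψ) > 0`, and
`sin (kψ) - sin ((k+1)ψ) = - 2 cos ((2k+1)ψ/2) sin (ψ/2) > 0` because
`π/2 < (2k+1)ψ/2 < π`. Put `r = sin (kψ)/s > 1`, `z = r e^{iψ}`. Then `z^k (z - 1) = -p`:
`1 - r e^{iψ} = (s - sin(kψ) e^{iψ})/s` and
`sin ((k+1)ψ) - sin (kψ) e^{iψ} = e^{-ikψ} sin ψ`
(check: multiply by `e^{ikψ}`: imaginary part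
`sin((k+1)ψ) sin(kψ) - sin(kψ) sin((k+1)ψ) = 0`, real part
`sin((k+1)ψ) cos(kψ) - sin(kψ) cos((k+1)ψ) = sin ψ`). Hence
`z^k (1 - z) = r^k e^{ikψ} e^{-ikψ} sin ψ / s = r^k sin ψ/s = sin(kψ)^k sin ψ/s^(k+1) = p`. -/
def RootStmt : Prop :=
  ∀ (k : ℕ) (p : ℝ), 2 * Real.cos (k * Real.pi / (2 * k + 1)) < p → p < 1 →
    ∃ z : ℂ, 1 < ‖z‖ ∧ z ^ (k + 1) - z ^ k + (p : ℂ) = 0

/-- PACKET GROWTH. If all zeros of `z^(k+1) - z^k + p` have modulus `< R`, every real solution of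
`u (n+k+1) = u (n+k) - p u n` is `O(R^n)`.

Proof. Work with complex sequences `ℕ → ℂ`. Claim: for every list (or multiset) `l` of complex
numbers of modulus `< R`, and every sequence `u`: if `g = (∏_{a ∈ l} (S - a)) u` satisfies
`‖g n‖ ≤ C R^n` for all `n` (some `C`), then `‖u n‖ ≤ C' R^n` for some `C'`; here `S` is the shift
`(S u) n = u (n+1)`. Induction on `l`: `l = []`: `u = g`. `l = a :: l'`: put
`v = (∏_{l'} (S - b)) u`, so `v (n+1) = a v n + g n`; with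
`C'' = max ‖v 0‖ (C/(R - ‖a‖))` one gets `‖v n‖ ≤ C'' R^n` by induction on `n`
(`‖a‖ C'' + C ≤ R C''`); apply the induction hypothesis to `l'`.
Now `P = X^(k+1) - X^k + p` (monic, over the algebraically closed field `ℂ`) is the product of
`X - a` over its roots, each of modulus `< R`, and `aeval S P u = 0` by the recurrence, where `S`
is the shift in `Module.End ℂ (ℕ → ℂ)`. (`R > 0` because `P` has a root of modulus `< R`.) -/
def GrowthStmt : Prop :=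
  ∀ (k : ℕ) (p R : ℝ), (∀ z : ℂ, z ^ (k + 1) - z ^ k + (p : ℂ) = 0 → ‖z‖ < R) →
    ∀ u : ℕ → ℝ, (∀ n, u (n + k + 1) = u (n + k) - p * u n) →
      ∃ C : ℝ, ∀ n, |u n| ≤ C * R ^ n

/-- PACKET UNST (given RootStmt and GrowthStmt). Instability of the equilibrium beyond the critical
value, all delays.

Proof. `p = (α-1)/α ∈ (0,1)`, `x̄ = (α-1)/β`. Writing `x n = x̄ (1 + ξ n)` the recurrence is
`ξ (n+k+1) = (ξ (n+k) - p ξ n)/(1 + p ξ n) = ξ (n+k) - p ξ n + r n`,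
`r n = - p ξ n (ξ (n+k) - p ξ n)/(1 + p ξ n)`; if `|ξ n| ≤ 1/2` then
`|r n| ≤ 2 |ξ n| (|ξ (n+k)| + |ξ n|)`.
Let `λ` be a zero of `z^(k+1) - z^k + p` of maximal modulus `ρ`; by RootStmt `ρ > 1`. Put
`R = (ρ + ρ²)/2`, so `ρ < R < ρ²` and all zeros have modulus `< R`. Let `F` be the solution of
`F (m+k+1) = F (m+k) - p F m` with `F 0 = … = F (k-1) = 0`, `F k = 1`; GrowthStmt gives `C1 ≥ 1`
with `|F m| ≤ C1 R^m`. Variation of constants: if `ξ i = u i` for `i ≤ k`,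
`u (n+k+1) = u (n+k) - p u n`, then `ξ m - u m = ∑_{j + k + 1 ≤ m} F (m-1-j) r j`
(strong induction on `m`). Put `K = 16 C1 ρ^k/(1 - R/ρ²)` (any `K` this large works),
`η = min (1/4) (1/(2K))`. Given `δ > 0` choose `N` with `s := η ρ^{-N}` satisfying
`x̄ s ρ^k < δ`; put `u n = s Re (λ^n conj(λ)^N)/ρ^N`. Then `u` solves the linear recurrence,
`|u n| ≤ s ρ^n =: e n`, `u N = e N = η`. Let `x` be the solution of the nonlinear recurrence with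
`x i = x̄ (1 + u i)` for `i ≤ k` (`|u i| ≤ s ρ^k`; take also `s ρ^k < 1` if needed so that
`x i > 0`; all later terms are positive). Claim `|ξ m - u m| ≤ K (e m)²` for `m ≤ N`: strong
induction; for `j + k < m` we have `|ξ j| ≤ e j + K (e j)² ≤ 2 e j ≤ 1/2`, same for `j + k`, and
`e (j+k) = ρ^k e j`, hence `|r j| ≤ 4 e j (2 ρ^k e j + 2 e j) ≤ 16 ρ^k (e j)²`, so
`|ξ m - u m| ≤ ∑_j C1 R^(m-1-j) 16 ρ^k s² ρ^(2j) ≤ 16 C1 ρ^k s² ρ^(2m-2) ∑_i (R/ρ²)^i ≤ K (e m)²`.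
So `|ξ N| ≥ η - K η² ≥ η/2`, and `ε = x̄ η/2` works. -/
def UnstableStmt : Prop :=
  ∀ (α β : ℝ) (k : ℕ), 1 < α → 0 < β →
    2 * Real.cos (k * Real.pi / (2 * k + 1)) < (α - 1) / α →
    ∃ ε : ℝ, 0 < ε ∧ ∀ δ : ℝ, 0 < δ → ∃ x : ℕ → ℝ,
      (∀ n, x (n + k + 1) = α * x (n + k) / (1 + β * x n)) ∧
      (∀ i ≤ k, 0 < x i) ∧
      (∀ i ≤ k, |x i - (α - 1) / β| < δ) ∧
      ∃ n, ε ≤ |x n - (α - 1) / β|

/-- PACKET HALF. Global convergence for `k = 2` and `p ≤ 1/2`.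

Proof. `q = 1 - p ≥ p`.
(a) If `X (n+1) ≥ X n` (`n ≥ 4`) then, as `X (n+1) (q + p X (n-2)) = X n`, `A := X (n-2) ≤ 1`.
Suppose `X ≥ m` on all indices `≥ n - 4` (`0 ≤ m ≤ 1`), `g = q + p m ∈ (0, 1]`. Then
`X (n+1) = A/((q + p X (n-4)) (q + p X (n-3)) (q + p A)) ≤ g⁻² A/(q + p A) ≤ g⁻²`.
Consequently: if eventually `X ≥ m`, then either eventually `X (n+1) < X n` and `X n > g⁻² ≥ 1`
forever, so `X` converges to some `L ≥ 1`, and `L (q + p L) = L` gives `L = 1`; or eventually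
`X ≤ g⁻²` (once `X n ≤ g⁻²`, either `X (n+1) < X n ≤ g⁻²` or `X (n+1) ≤ g⁻²`).
(b) Likewise if `X (n+1) ≤ X n` then `A = X (n-2) ≥ 1`; if `X ≤ B` on the indices `≥ n - 4`,
`B ≥ 1`, `G = q + p B ≥ 1`, then `X (n+1) ≥ G⁻² A/(q + p A) ≥ G⁻²`. So either `X → 1` or
eventually `X ≥ G⁻²`.
(c) Assume `X` does not converge to `1`. By (a) with `m = 0`, `X` is bounded; by (b) it is bounded
below by a positive constant. Let `M = limsup X`, `I = liminf X`, `0 < I ≤ M < ∞`. By (a) for every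
`m < I` (with `m ≤ 1`; note `I ≤ 1 ≤ M` because eventually-below/above-1 sequences are monotone
and converge to `1`, or simply use `min m 1`), `M ≤ (q + p m)⁻²`, so `M ≤ (q + p I)⁻²`, and
similarly `I ≥ (q + p M)⁻²`. With `x = √M`, `y = √I`, `y ≤ x`: `x (q + p y²) ≤ 1 ≤ y (q + p x²)`,
subtract: `(x - y)(q - p x y) ≤ 0`. Also `y ≤ 1` and `x y ≤ y/(q + p y²) ≤ 1`
(`q + p y² - y = (1 - y)(q - p y) ≥ 0`). So `q - p x y ≥ q - p ≥ 0`. If `x ≠ y` then `q = p x y`,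
forcing `x y = 1`, `p = q`, and `(1-y)(q - p y) = 0` so `y = 1`, `x = 1`, contradiction. So
`M = I`, `X` converges to `M > 0`, and `M (q + p M) = M` gives `M = 1`, contradiction. -/
def HalfStmt : Prop :=
  ∀ (p : ℝ) (X : ℕ → ℝ), 0 < p → p ≤ 1 / 2 → (∀ n, 0 < X n) →
    (∀ n, X (n + 3) * (1 - p + p * X n) = X (n + 2)) → Tendsto X atTop (𝓝 1)

/-- PACKET STEP (two statements). One step of the amplitude reduction, `k = 2`, `q = 1 - p`.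

UP: let eventually `X ≥ m`, `0 ≤ m ≤ 1`, `g = q + p m`, `r ≥ 0`, `r² ≤ g`, `B ≥ 1`,
`1 ≤ B g (p q) (1 + g + 2 r)`. Then `X → 1` or eventually `X ≤ B`.
Proof. If `X (n+1) ≥ X n` (`n` large) then `A := X (n-2) ≤ 1` since
`X (n+1) (q + p X (n-2)) = X n`. We have
`X (n+1) = A/((q + p X (n-4)) (q + p X (n-3)) (q + p A))`, `X (n-4) ≥ m`,
`X (n-3) = A (q + p X (n-5)) ≥ A g`, so `X (n+1) ≤ A/(g (q + p g A)(q + p A))`. And
`B g (q + p A)(q + p g A) = B g (q² + p q (1 + g) A + p² g A²) ≥ B g p q (1 + g + 2 r) A ≥ A`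
(because `q² + p² g A² ≥ 2 p q r A`, from `g ≥ r²`). So `X (n+1) ≤ B`. Now either for all large
`n`: `X n > B` and `X (n+1) < X n`, so `X` decreases to `L ≥ B ≥ 1`, `L (q + p L) = L`, `L = 1`;
or eventually `X ≤ B`.
DOWN: let eventually `X ≤ B`, `B ≥ 1`, `G = q + p B`, `0 < m ≤ 1`, `m G (q + p G) ≤ 1`,
`m G² (q G + p B) ≤ B`. Then `X → 1` or eventually `X ≥ m`.
Proof. If `X (n+1) ≤ X n` then `A := X (n-2) ≥ 1`, `A ≤ B`, `X (n-4) ≤ B`,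
`X (n-3) = A (q + p X (n-5)) ≤ A G` and also `X (n-3) ≤ B`. If `A G ≤ B`:
`X (n+1) ≥ A/(G (q + p G A)(q + p A))`, to show `≥ m`: `h A := A - m G (q + p A)(q + p G A)` is
concave in `A`, `h 1 = 1 - m G (q + p G) ≥ 0` (as `q + p = 1`) and
`h (B/G) = B/G - m G (q + p B/G) (q + p B) = (B - m G² (q G + p B))/G ≥ 0`, and
`1 ≤ A ≤ B/G`. If `A G ≥ B`: `X (n+1) ≥ A/(G² (q + p A))`, and
`A - m G² (q + p A) = A (1 - m p G²) - m G² q` is increasing in `A` (`m p G² ≤ 1` by the last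
hypothesis, as `m G² p B ≤ B`) and at `A = B/G` it is `(B - m G² (q G + p B))/G ≥ 0`. Then argue
as before (decreasing replaced by increasing: bounded above by `B`; limit `L` with `0 < L ≤ m ≤ 1`
and `L (q + p L) = L`, so `L = 1`). -/
def StepUpStmt : Prop :=
  ∀ (p : ℝ) (X : ℕ → ℝ), 0 < p → p < 1 → (∀ n, 0 < X n) →
    (∀ n, X (n + 3) * (1 - p + p * X n) = X (n + 2)) →
    ∀ m B r : ℝ, 0 ≤ m → m ≤ 1 → 1 ≤ B → 0 ≤ r → r ^ 2 ≤ 1 - p + p * m →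
      1 ≤ B * (1 - p + p * m) * (p * (1 - p)) * (1 + (1 - p + p * m) + 2 * r) →
      (∀ᶠ n in atTop, m ≤ X n) → Tendsto X atTop (𝓝 1) ∨ ∀ᶠ n in atTop, X n ≤ B

/-- See the docstring of `StepUpStmt` (part DOWN). -/
def StepDownStmt : Prop :=
  ∀ (p : ℝ) (X : ℕ → ℝ), 0 < p → p < 1 → (∀ n, 0 < X n) →
    (∀ n, X (n + 3) * (1 - p + p * X n) = X (n + 2)) →
    ∀ m B : ℝ, 0 < m → m ≤ 1 → 1 ≤ B →
      m * (1 - p + p * B) * (1 - p + p * (1 - p + p * B)) ≤ 1 →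
      m * (1 - p + p * B) ^ 2 * ((1 - p) * (1 - p + p * B) + p * B) ≤ B →
      (∀ᶠ n in atTop, X n ≤ B) → Tendsto X atTop (𝓝 1) ∨ ∀ᶠ n in atTop, m ≤ X n

end Pool.Agent.Helper30.PL
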