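import Mathlib

/-!
Fixed point interval arithmetic over `ℤ` (scale `10^9`) and the positive definiteness test.
-/

set_option autoImplicit false

namespace Pool.Agent.Helper30.PL

/-- interval `[l, h] / 10^9` -/
structure Iv where
  l : ℤ
  h : ℤ

namespace Iv

/-- the scale -/
def S : ℤ := 1000000000

/-- membership of a real number -/
def mem (x : ℝ) (I : Iv) : Prop := (I.l : ℝ) ≤ x * (S : ℤ) ∧ x * (S : ℤ) ≤ I.h

/-- sum -/
def add (I J : Iv) : Iv := ⟨I.l + J.l, I.h + J.h⟩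

/-- opposite -/
def neg (I : Iv) : Iv := ⟨-I.h, -I.l⟩

/-- difference -/
def sub (I J : Iv) : Iv := ⟨I.l - J.h, I.h - J.l⟩

/-- product -/
def mul (I J : Iv) : Iv :=
  ⟨min (min (I.l * J.l) (I.l * J.h)) (min (I.h * J.l) (I.h * J.h)) / S,
   -((-(max (max (I.l * J.l) (I.l * J.h)) (max (I.h * J.l) (I.h * J.h)))) / S)⟩

/-- multiplication by an integer -/
def smul (c : ℤ) (I : Iv) : Iv := if 0 ≤ c then ⟨c * I.l, c * I.h⟩ else ⟨c * I.h, c * I.l⟩

/-- integer constant -/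
def const (c : ℤ) : Iv := ⟨c * S, c * S⟩

lemma mem_add {x y : ℝ} {I J : Iv} (hx : mem x I) (hy : mem y J) : mem (x + y) (add I J) := by
  unfold mem add at *; push_cast; constructor <;> nlinarith [hx.1, hx.2, hy.1, hy.2]

lemma mem_neg {x : ℝ} {I : Iv} (hx : mem x I) : mem (-x) (neg I) := by
  unfold mem neg at *; push_cast; constructor <;> nlinarith [hx.1, hx.2]

lemma mem_sub {x y : ℝ} {I J : Iv} (hx : mem x I) (hy : mem y J) : mem (x - y) (sub I J) := by
  unfold mem sub at *; push_cast; constructor <;> nlinarith [hx.1, hx.2, hy.1, hy.2]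

lemma mem_const (c : ℤ) : mem (c : ℝ) (const c) := by
  unfold mem const; push_cast; exact ⟨le_rfl, le_rfl⟩

lemma mem_smul {x : ℝ} {I : Iv} (c : ℤ) (hx : mem x I) : mem ((c : ℝ) * x) (smul c I) := by
  unfold mem smul at *
  split_ifs with h
  · have h' : (0 : ℝ) ≤ (c : ℝ) := by exact_mod_cast h
    push_cast
    constructor <;> nlinarith [mul_le_mul_of_nonneg_left hx.1 h', mul_le_mul_of_nonneg_left hx.2 h']
  · have h' : (c : ℝ) ≤ 0 := by exact_mod_cast (not_le.mp h).le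
    push_cast
    constructor <;> nlinarith [mul_le_mul_of_nonpos_left hx.1 h', mul_le_mul_of_nonpos_left hx.2 h']

lemma mul_bounds {a b c d x y : ℝ} (h1 : a ≤ x) (h2 : x ≤ b) (h3 : c ≤ y) (h4 : y ≤ d) :
    min (min (a * c) (a * d)) (min (b * c) (b * d)) ≤ x * y ∧
    x * y ≤ max (max (a * c) (a * d)) (max (b * c) (b * d)) := by
  constructor
  · by_contra hcon
    push Not at hcon
    simp only [lt_min_iff] at hcon
    obtain ⟨⟨g1, g2⟩, g3, g4⟩ := hcon
    rcases le_total 0 y with hy | hy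
    · rcases le_total 0 a with ha | ha
      · nlinarith [mul_le_mul_of_nonneg_right h1 hy, mul_le_mul_of_nonneg_left h3 ha]
      · nlinarith [mul_le_mul_of_nonneg_right h1 hy, mul_le_mul_of_nonpos_left h4 ha]
    · rcases le_total 0 b with hb | hb
      · nlinarith [mul_le_mul_of_nonpos_right h2 hy, mul_le_mul_of_nonneg_left h3 hb]
      · nlinarith [mul_le_mul_of_nonpos_right h2 hy, mul_le_mul_of_nonpos_left h4 hb]
  · by_contra hcon
    push Not at hcon
    simp only [max_lt_iff] at hcon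
    obtain ⟨⟨g1, g2⟩, g3, g4⟩ := hcon
    rcases le_total 0 y with hy | hy
    · rcases le_total 0 b with hb | hb
      · nlinarith [mul_le_mul_of_nonneg_right h2 hy, mul_le_mul_of_nonneg_left h4 hb]
      · nlinarith [mul_le_mul_of_nonneg_right h2 hy, mul_le_mul_of_nonpos_left h3 hb]
    · rcases le_total 0 a with ha | ha
      · nlinarith [mul_le_mul_of_nonpos_right h1 hy, mul_le_mul_of_nonneg_left h4 ha]
      · nlinarith [mul_le_mul_of_nonpos_right h1 hy, mul_le_mul_of_nonpos_left h3 ha]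

lemma div_le_real (n : ℤ) {r : ℝ} (h : (n : ℝ) ≤ r * (S : ℤ)) : ((n / S : ℤ) : ℝ) ≤ r := by
  have hS : (0 : ℝ) < ((S : ℤ) : ℝ) := by norm_num [S]
  have h1 : ((n / S : ℤ) : ℝ) * (S : ℤ) ≤ n := by
    have : (n / S) * S ≤ n := Int.ediv_mul_le n (by norm_num [S])
    exact_mod_cast this
  have h2 : ((n / S : ℤ) : ℝ) * (S : ℤ) ≤ r * (S : ℤ) := h1.trans h
  exact le_of_mul_le_mul_right h2 hS

lemma mem_mul {x y : ℝ} {I J : Iv} (hx : mem x I) (hy : mem y J) : mem (x * y) (mul I J) := by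
  have hb := mul_bounds hx.1 hx.2 hy.1 hy.2
  unfold mem mul
  constructor
  · apply div_le_real
    push_cast
    calc _ ≤ (x * (S : ℤ)) * (y * (S : ℤ)) := hb.1
      _ = _ := by ring
  · push_cast
    rw [le_neg]
    have := div_le_real (-(max (max (I.l * J.l) (I.l * J.h)) (max (I.h * J.l) (I.h * J.h))))
      (r := -(x * y * (S : ℤ))) (by
        push_cast
        have h2 := hb.2
        have e : -(x * y * (S : ℤ)) * (S : ℤ) = -((x * (S : ℤ)) * (y * (S : ℤ))) := by ring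
        rw [e]
        exact neg_le_neg h2)
    exact_mod_cast this

/-- powers -/
def pow (I : Iv) : ℕ → Iv
  | 0 => const 1
  | n + 1 => mul (pow I n) I

lemma mem_pow {x : ℝ} {I : Iv} (hx : mem x I) : ∀ n, mem (x ^ n) (pow I n)
  | 0 => by simpa [pow] using mem_const 1
  | n + 1 => by rw [pow_succ]; exact mem_mul (mem_pow hx n) hx

lemma pos_of_mem {x : ℝ} {I : Iv} (hx : mem x I) (h : 0 < I.l) : 0 < x := by
  have hS : (0 : ℝ) < ((S : ℤ) : ℝ) := by norm_num [S]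
  have h' : (0 : ℝ) < (I.l : ℝ) := by exact_mod_cast h
  by_contra hcon
  have := mul_nonpos_of_nonpos_of_nonneg (not_lt.mp hcon) hS.le
  linarith [hx.1]

end Iv

/-- Positive semidefiniteness of a ternary quadratic form from its interval coefficients
(elimination of the second variable). -/
def pdTest (K11 K12 K22 K13 K23 K33 : Iv) : Bool :=
  let c11 := (K22.mul K11).sub (K12.mul K12)
  let c33 := (K22.mul K33).sub (K23.mul K23)
  let c13 := (K22.mul K13).sub (K12.mul K23)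
  decide (0 < K22.l) && decide (0 < c11.l) && decide (0 < c33.l) &&
    decide (c13.h * c13.h ≤ c11.l * c33.l) && decide (c13.l * c13.l ≤ c11.l * c33.l)

lemma form_nonneg {k11 k12 k22 k13 k23 k33 : ℝ} (h22 : 0 < k22)
    (h11 : 0 < k22 * k11 - k12 * k12)
    (hd : (k22 * k13 - k12 * k23) ^ 2 ≤ (k22 * k11 - k12 * k12) * (k22 * k33 - k23 * k23))
    (x y z : ℝ) :
    0 ≤ k11 * x ^ 2 + 2 * k12 * x * y + k22 * y ^ 2 + 2 * k13 * x * z + 2 * k23 * y * z
      + k33 * z ^ 2 := by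
  set c11 := k22 * k11 - k12 * k12 with hc11
  set c33 := k22 * k33 - k23 * k23 with hc33
  set c13 := k22 * k13 - k12 * k23 with hc13
  have h1 : 0 ≤ c11 * (c11 * x ^ 2 + 2 * c13 * x * z + c33 * z ^ 2) := by
    nlinarith [sq_nonneg (c11 * x + c13 * z), mul_nonneg (sub_nonneg.mpr hd) (sq_nonneg z)]
  have h2 : 0 ≤ c11 * x ^ 2 + 2 * c13 * x * z + c33 * z ^ 2 :=
    nonneg_of_mul_nonneg_right h1 h11
  have h3 : 0 ≤ k22 * (k11 * x ^ 2 + 2 * k12 * x * y + k22 * y ^ 2 + 2 * k13 * x * z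
      + 2 * k23 * y * z + k33 * z ^ 2) := by
    have : k22 * (k11 * x ^ 2 + 2 * k12 * x * y + k22 * y ^ 2 + 2 * k13 * x * z
      + 2 * k23 * y * z + k33 * z ^ 2)
      = (k22 * y + k12 * x + k23 * z) ^ 2 + (c11 * x ^ 2 + 2 * c13 * x * z + c33 * z ^ 2) := by
      rw [hc11, hc13, hc33]; ring
    rw [this]; positivity
  exact nonneg_of_mul_nonneg_right h3 h22

lemma sq_le_of_bounds {l h x m : ℝ} (h1 : l ≤ x) (h2 : x ≤ h) (h3 : l * l ≤ m)
    (h4 : h * h ≤ m) : x ^ 2 ≤ m := by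
  rcases le_total 0 x with hx | hx
  · nlinarith
  · nlinarith

lemma pdTest_sound {K11 K12 K22 K13 K23 K33 : Iv} {k11 k12 k22 k13 k23 k33 : ℝ}
    (m11 : Iv.mem k11 K11) (m12 : Iv.mem k12 K12) (m22 : Iv.mem k22 K22)
    (m13 : Iv.mem k13 K13) (m23 : Iv.mem k23 K23) (m33 : Iv.mem k33 K33)
    (h : pdTest K11 K12 K22 K13 K23 K33 = true) (x y z : ℝ) :
    0 ≤ k11 * x ^ 2 + 2 * k12 * x * y + k22 * y ^ 2 + 2 * k13 * x * z + 2 * k23 * y * z
      + k33 * z ^ 2 := by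
  simp only [pdTest, Bool.and_eq_true, decide_eq_true_eq] at h
  obtain ⟨⟨⟨⟨h22, h11⟩, h33⟩, hd1⟩, hd2⟩ := h
  have n11 := Iv.mem_sub (Iv.mem_mul m22 m11) (Iv.mem_mul m12 m12)
  have n33 := Iv.mem_sub (Iv.mem_mul m22 m33) (Iv.mem_mul m23 m23)
  have n13 := Iv.mem_sub (Iv.mem_mul m22 m13) (Iv.mem_mul m12 m23)
  have p22 := Iv.pos_of_mem m22 h22
  have p11 := Iv.pos_of_mem n11 h11
  have hS : (0 : ℝ) < ((Iv.S : ℤ) : ℝ) := by norm_num [Iv.S]
  refine form_nonneg p22 p11 ?_ x y z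
  have hd1' : (((K22.mul K13).sub (K12.mul K23)).h : ℝ) * ((K22.mul K13).sub (K12.mul K23)).h
      ≤ ((K22.mul K11).sub (K12.mul K12)).l * ((K22.mul K33).sub (K23.mul K23)).l := by
    exact_mod_cast hd1
  have hd2' : (((K22.mul K13).sub (K12.mul K23)).l : ℝ) * ((K22.mul K13).sub (K12.mul K23)).l
      ≤ ((K22.mul K11).sub (K12.mul K12)).l * ((K22.mul K33).sub (K23.mul K23)).l := by
    exact_mod_cast hd2
  have h11' : (0 : ℝ) < ((K22.mul K11).sub (K12.mul K12)).l := by exact_mod_cast h11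
  have h33' : (0 : ℝ) < ((K22.mul K33).sub (K23.mul K23)).l := by exact_mod_cast h33
  have e1 : (((k22 * k13 - k12 * k23) * (Iv.S : ℤ)) ^ 2 : ℝ)
      ≤ ((K22.mul K11).sub (K12.mul K12)).l * ((K22.mul K33).sub (K23.mul K23)).l :=
    sq_le_of_bounds n13.1 n13.2 hd2' hd1'
  have e2 : (((K22.mul K11).sub (K12.mul K12)).l : ℝ) * ((K22.mul K33).sub (K23.mul K23)).l
      ≤ ((k22 * k11 - k12 * k12) * (Iv.S : ℤ)) * ((k22 * k33 - k23 * k23) * (Iv.S : ℤ)) :=
    mul_le_mul n11.1 n33.1 h33'.le (h11'.le.trans n11.1)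
  have e3 := e1.trans e2
  have hS2 : (0 : ℝ) < ((Iv.S : ℤ) : ℝ) ^ 2 := by positivity
  have e4 : (k22 * k13 - k12 * k23) ^ 2 * ((Iv.S : ℤ) : ℝ) ^ 2
      ≤ (k22 * k11 - k12 * k12) * (k22 * k33 - k23 * k23) * ((Iv.S : ℤ) : ℝ) ^ 2 := by
    calc _ = (((k22 * k13 - k12 * k23) * (Iv.S : ℤ)) ^ 2 : ℝ) := by ring
      _ ≤ _ := e3
      _ = _ := by ring
  exact le_of_mul_le_mul_right e4 hS2

end Pool.Agent.Helper30.PL
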