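import Pool.Agent.Helper58.PL.STEP

/-!
Amplitude reduction for `k = 2`, `1/2 ≤ p ≤ 0.61804`.
-/

set_option autoImplicit false

open Filter Topology

namespace Pool.Agent.Helper30.PL

lemma step_pair {p : ℝ} {X : ℕ → ℝ} (hp : 1 / 2 ≤ p) (hp' : p ≤ 61804 / 100000)
    (hX : ∀ n, 0 < X n) (hrec : ∀ n, X (n + 3) * (1 - p + p * X n) = X (n + 2))
    (m r B m' : ℝ) (hm0 : 0 ≤ m) (hm1 : m ≤ 1) (hB : 1 ≤ B) (hr : 0 ≤ r)
    (hr2 : r ^ 2 ≤ 1 - 61804 / 100000 + 61804 / 100000 * m)
    (h1 : 1 ≤ B * (1 - 61804 / 100000 + 61804 / 100000 * m)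
      * (61804 / 100000 * (1 - 61804 / 100000))
      * (1 + (1 - 61804 / 100000 + 61804 / 100000 * m) + 2 * r))
    (hm' : 0 < m') (hm'1 : m' ≤ 1)
    (h2 : m' * (1 + 61804 / 100000 * (B - 1)) * (1 + (61804 / 100000) ^ 2 * (B - 1)) ≤ 1)
    (h3 : m' * (1 + 61804 / 100000 * (B - 1)) ^ 2
      * (1 + (B - 1) * (61804 / 100000 * (2 - 61804 / 100000))) ≤ B)
    (hev : ∀ᶠ n in atTop, m ≤ X n) :
    Tendsto X atTop (𝓝 1) ∨ ((∀ᶠ n in atTop, X n ≤ B) ∧ ∀ᶠ n in atTop, m' ≤ X n) := by
  have hp0 : 0 < p := by linarith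
  have hp1 : p < 1 := by linarith
  set g0 : ℝ := 1 - 61804 / 100000 + 61804 / 100000 * m with hg0
  have hg : g0 ≤ 1 - p + p * m := by rw [hg0]; nlinarith
  have hg0pos : 0 < g0 := by rw [hg0]; nlinarith
  have hpq : 61804 / 100000 * (1 - 61804 / 100000) ≤ p * (1 - p) := by nlinarith
  have hup := Pool.Agent.Helper58.PL.stepUp p X hp0 hp1 hX hrec m B r hm0 hm1 hB hr
    (hr2.trans hg) (by
      refine h1.trans ?_
      have hB0 : 0 ≤ B := by linarith
      have : 0 ≤ 61804 / 100000 * (1 - (61804 / 100000 : ℝ)) := by norm_num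
      gcongr) hev
  rcases hup with h | hupB
  · exact Or.inl h
  have hB1 : 0 ≤ B - 1 := by linarith
  have hG : 1 - p + p * B ≤ 1 + 61804 / 100000 * (B - 1) := by nlinarith
  have hGpos : 0 ≤ 1 - p + p * B := by nlinarith
  have hdown := Pool.Agent.Helper58.PL.stepDown p X hp0 hp1 hX hrec m' B hm' hm'1 hB (by
      refine le_trans ?_ h2
      have e : 1 - p + p * (1 - p + p * B) ≤ 1 + (61804 / 100000) ^ 2 * (B - 1) := by
        have : p ^ 2 ≤ (61804 / 100000) ^ 2 := by gcongr
        nlinarith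
      have e0 : 0 ≤ 1 - p + p * (1 - p + p * B) := by nlinarith
      gcongr) (by
      refine le_trans ?_ h3
      have e : (1 - p) * (1 - p + p * B) + p * B
          ≤ 1 + (B - 1) * (61804 / 100000 * (2 - 61804 / 100000)) := by
        have : p * (2 - p) ≤ 61804 / 100000 * (2 - 61804 / 100000) := by nlinarith
        nlinarith
      have e0 : 0 ≤ (1 - p) * (1 - p + p * B) + p * B := by nlinarith
      gcongr) hupB
  rcases hdown with h | h
  · exact Or.inl h
  · exact Or.inr ⟨hupB, h⟩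

theorem range_final {p : ℝ} {X : ℕ → ℝ} (hp : 1 / 2 ≤ p) (hp' : p ≤ 61804 / 100000)
    (hX : ∀ n, 0 < X n) (hrec : ∀ n, X (n + 3) * (1 - p + p * X n) = X (n + 2)) :
    Tendsto X atTop (𝓝 1) ∨
      ((∀ᶠ n in atTop, X n ≤ 24136 / 10000) ∧ ∀ᶠ n in atTop, 3114 / 10000 ≤ X n) := by
  have h0 : ∀ᶠ n in atTop, (0 : ℝ) ≤ X n := Eventually.of_forall fun n => (hX n).le
  rcases step_pair hp hp' hX hrec 0 (309 / 500) (42363 / 10000) (1 / 8) (by norm_num)
    (by norm_num) (by norm_num) (by norm_num) (by norm_num) (by norm_num) (by norm_num)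
    (by norm_num) (by norm_num) (by norm_num) h0 with h | ⟨-, h1⟩
  · exact Or.inl h
  rcases step_pair hp hp' hX hrec (1 / 8) (847 / 1250) (32777 / 10000) (1919 / 10000)
    (by norm_num)
    (by norm_num) (by norm_num) (by norm_num) (by norm_num) (by norm_num) (by norm_num)
    (by norm_num) (by norm_num) (by norm_num) h1 with h | ⟨-, h2⟩
  · exact Or.inl h
  rcases step_pair hp hp' hX hrec (1919 / 10000) (283 / 400) (14513 / 5000) (467 / 2000)
    (by norm_num)
    (by norm_num) (by norm_num) (by norm_num) (by norm_num) (by norm_num) (by norm_num)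
    (by norm_num) (by norm_num) (by norm_num) h2 with h | ⟨-, h3⟩
  · exact Or.inl h
  rcases step_pair hp hp' hX hrec (467 / 2000) (3627 / 5000) (13519 / 5000) (653 / 2500)
    (by norm_num)
    (by norm_num) (by norm_num) (by norm_num) (by norm_num) (by norm_num) (by norm_num)
    (by norm_num) (by norm_num) (by norm_num) h3 with h | ⟨-, h4⟩
  · exact Or.inl h
  rcases step_pair hp hp' hX hrec (653 / 2500) (7371 / 10000) (5167 / 2000) (561 / 2000)
    (by norm_num)
    (by norm_num) (by norm_num) (by norm_num) (by norm_num) (by norm_num) (by norm_num)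
    (by norm_num) (by norm_num) (by norm_num) h4 with h | ⟨-, h5⟩
  · exact Or.inl h
  rcases step_pair hp hp' hX hrec (561 / 2000) (7451 / 10000) (3131 / 1250) (1471 / 5000)
    (by norm_num)
    (by norm_num) (by norm_num) (by norm_num) (by norm_num) (by norm_num) (by norm_num)
    (by norm_num) (by norm_num) (by norm_num) h5 with h | ⟨-, h6⟩
  · exact Or.inl h
  rcases step_pair hp hp' hX hrec (1471 / 5000) (1877 / 2500) (1532 / 625) (3041 / 10000)
    (by norm_num)
    (by norm_num) (by norm_num) (by norm_num) (by norm_num) (by norm_num) (by norm_num)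
    (by norm_num) (by norm_num) (by norm_num) h6 with h | ⟨-, h7⟩
  · exact Or.inl h
  rcases step_pair hp hp' hX hrec (3041 / 10000) (7549 / 10000) (3017 / 1250) (1557 / 5000)
    (by norm_num)
    (by norm_num) (by norm_num) (by norm_num) (by norm_num) (by norm_num) (by norm_num)
    (by norm_num) (by norm_num) (by norm_num) h7 with h | ⟨h8, h8'⟩
  · exact Or.inl h
  refine Or.inr ⟨?_, ?_⟩
  · filter_upwards [h8] with n hn; linarith
  · filter_upwards [h8'] with n hn; linarith

end Pool.Agent.Helper30.PL
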