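import Pool.Agent.Helper30.PL.Two

/-!
Lyapunov stability for `k = 2`, `1/2 ≤ p ≤ (√5 - 1)/2`.
-/

set_option autoImplicit false

open Filter Topology

namespace Pool.Agent.Helper30.PL

lemma V3_small {s : ℝ} (hs0 : 0 ≤ s) (hs1 : s ≤ 1) {u v h t : ℝ} (ht : 0 ≤ t) (hu : |u| ≤ t)
    (hv : |v| ≤ t) (hh : |h| ≤ t) :
    -(20 * t * (u ^ 2 + v ^ 2 + h ^ 2)) ≤
      (((6/121) + (69/242)*s)*u^3 + ((-20/121) + (-109/242)*s)*u^2*v + ((347/1210)
   + (183/1210)*s)*u^2*h + ((61/242) + (9/121)*s)*u*v^2 + ((-177/220) + (-137/220)*s)*u*v*h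
   + ((-133/1100) + (-73/550)*s)*u*h^2 + ((-21/121) + (61/242)*s)*v^3 + ((74/121)
   + (909/2420)*s)*v^2*h + ((227/1100) + (27/550)*s)*v*h^2 + ((-3/44) + (-3/55)*s)*h^3) := by
  have hu' := abs_le.mp hu
  have hv' := abs_le.mp hv
  have hh' := abs_le.mp hh
  have key : ∀ c x w : ℝ, |c| ≤ 2 → |x| ≤ t → 0 ≤ w → -(2 * t * w) ≤ c * (x * w) := by
    intro c x w hc hx hw
    have h1 : |c * (x * w)| ≤ 2 * (t * w) := by
      rw [abs_mul, abs_mul, abs_of_nonneg hw]
      gcongr
    have := neg_abs_le (c * (x * w))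
    linarith
  have hcs : ∀ A B : ℝ, |A| ≤ 1 → |B| ≤ 1 → |A + B * s| ≤ 2 := by
    intro A B hA hB
    calc |A + B * s| ≤ |A| + |B * s| := abs_add_le _ _
      _ ≤ 1 + 1 * 1 := by
        rw [abs_mul, abs_of_nonneg hs0]; gcongr
      _ = 2 := by norm_num
  have k1 := key ((6/121) + (69/242)*s) u (u^2) (hcs _ _ (by norm_num [abs_le]) (by norm_num [abs_le])) hu (by positivity)
  have k2 := key ((-20/121) + (-109/242)*s) v (u^2) (hcs _ _ (by norm_num [abs_le]) (by norm_num [abs_le])) hv (by positivity)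
  have k3 := key ((347/1210) + (183/1210)*s) h (u^2) (hcs _ _ (by norm_num [abs_le]) (by norm_num [abs_le])) hh (by positivity)
  have k4 := key ((61/242) + (9/121)*s) u (v^2) (hcs _ _ (by norm_num [abs_le]) (by norm_num [abs_le])) hu (by positivity)
  have k6 := key ((-133/1100) + (-73/550)*s) u (h^2) (hcs _ _ (by norm_num [abs_le]) (by norm_num [abs_le])) hu (by positivity)
  have k7 := key ((-21/121) + (61/242)*s) v (v^2) (hcs _ _ (by norm_num [abs_le]) (by norm_num [abs_le])) hv (by positivity)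
  have k8 := key ((74/121) + (909/2420)*s) h (v^2) (hcs _ _ (by norm_num [abs_le]) (by norm_num [abs_le])) hh (by positivity)
  have k9 := key ((227/1100) + (27/550)*s) v (h^2) (hcs _ _ (by norm_num [abs_le]) (by norm_num [abs_le])) hv (by positivity)
  have k10 := key ((-3/44) + (-3/55)*s) h (h^2) (hcs _ _ (by norm_num [abs_le]) (by norm_num [abs_le])) hh (by positivity)
  have k5 : -(2 * t * ((u^2 + v^2) / 2)) ≤ ((-177/220) + (-137/220)*s)*u*v*h := by
    have hc := hcs (-177/220) (-137/220) (by norm_num [abs_le]) (by norm_num [abs_le])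
    have h1 : |((-177/220) + (-137/220)*s)*u*v*h| ≤ 2 * (t * (|u| * |v|)) := by
      rw [abs_mul, abs_mul, abs_mul]
      calc |-177 / 220 + -137 / 220 * s| * |u| * |v| * |h| ≤ 2 * |u| * |v| * t := by gcongr
        _ = 2 * (t * (|u| * |v|)) := by ring
    have h2 : |u| * |v| ≤ (u ^ 2 + v ^ 2) / 2 := by
      nlinarith [sq_nonneg (|u| - |v|), sq_abs u, sq_abs v]
    have h3 := neg_abs_le (((-177/220) + (-137/220)*s)*u*v*h)
    have h4 : t * (|u| * |v|) ≤ t * ((u ^ 2 + v ^ 2) / 2) := mul_le_mul_of_nonneg_left h2 ht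
    linarith
  have hu2 := mul_nonneg ht (sq_nonneg u)
  have hv2 := mul_nonneg ht (sq_nonneg v)
  have hh2 := mul_nonneg ht (sq_nonneg h)
  nlinarith

lemma V_coercive {s e : ℝ} (hs1 : s ≤ 619 / 1000) (hs2 : 618 / 1000 ≤ s) (he : 0 ≤ e)
    (he' : e ≤ 1181 / 10000) {u v h : ℝ} (hu : |u| ≤ 1 / 2000) (hv : |v| ≤ 1 / 2000)
    (hh : |h| ≤ 1 / 2000) : (u ^ 2 + v ^ 2 + h ^ 2) / 20 ≤ VV s e u v h := by
  have h3 := V3_small (s := s) (by linarith) (by linarith) (t := 1 / 2000) (by norm_num) hu hv hh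
  have h2 : (u ^ 2 + v ^ 2 + h ^ 2) * (3 / 50) ≤ u^2 - (1 + s)*u*v + v^2 + 3*h^2
      + e*(-(1/2)*u^2 + u*v + 2*u*h - v^2 - (14/5)*v*h) := by
    have e1 : (1 + s - e) * (u * v) ≤ (1 + s - e) * ((u ^ 2 + v ^ 2) / 2) := by
      apply mul_le_mul_of_nonneg_left _ (by linarith)
      nlinarith [sq_nonneg (u - v)]
    have e2 : e * (-(u ^ 2 / 4 + 4 * h ^ 2)) ≤ e * (2 * u * h) := by
      apply mul_le_mul_of_nonneg_left _ he
      nlinarith [sq_nonneg (u / 2 + 2 * h)]
    have e3 : e * (-(7 / 20 * v ^ 2 + 28 / 5 * h ^ 2)) ≤ e * (-(14/5)*v*h) := by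
      apply mul_le_mul_of_nonneg_left _ he
      nlinarith [sq_nonneg (v / 2 - 2 * h)]
    have e4 : e * u ^ 2 ≤ 1181 / 10000 * u ^ 2 := mul_le_mul_of_nonneg_right he' (sq_nonneg u)
    have e5 : e * v ^ 2 ≤ 1181 / 10000 * v ^ 2 := mul_le_mul_of_nonneg_right he' (sq_nonneg v)
    have e6 : e * h ^ 2 ≤ 1181 / 10000 * h ^ 2 := mul_le_mul_of_nonneg_right he' (sq_nonneg h)
    have e7 : s * u ^ 2 ≤ 619 / 1000 * u ^ 2 := mul_le_mul_of_nonneg_right hs1 (sq_nonneg u)
    have e8 : s * v ^ 2 ≤ 619 / 1000 * v ^ 2 := mul_le_mul_of_nonneg_right hs1 (sq_nonneg v)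
    nlinarith [sq_nonneg u, sq_nonneg v, sq_nonneg h]
  unfold VV
  nlinarith [sq_nonneg u, sq_nonneg v, sq_nonneg h]

lemma FF_abs {p : ℝ} (h0 : 0 < p) (h1 : p < 1) (t : ℝ) : |FF p t| ≤ |t| := by
  have hd := den_pos h0 h1 t
  rw [abs_le]
  rcases le_total 0 t with ht | ht
  · rw [abs_of_nonneg ht]
    have he : 1 ≤ Real.exp t := Real.one_le_exp ht
    constructor
    · have : 0 ≤ FF p t := Real.log_nonneg (by nlinarith)
      linarith
    · unfold FF
      rw [Real.log_le_iff_le_exp hd]; nlinarith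
  · rw [abs_of_nonpos ht]
    have he : Real.exp t ≤ 1 := Real.exp_le_one_iff.mpr ht
    constructor
    · unfold FF
      rw [neg_neg, Real.le_log_iff_exp_le hd]; nlinarith
    · have : FF p t ≤ 0 := Real.log_nonpos hd.le (by nlinarith)
      linarith

/-- Stability in the logarithmic variable. -/
theorem stab_log {s p : ℝ} (hs : s ^ 2 + s - 1 = 0) (h0 : 0 < s) (hp : 1 / 2 ≤ p) (hps : p ≤ s)
    {ε : ℝ} (hε : 0 < ε) : ∃ δ : ℝ, 0 < δ ∧ ∀ y : ℕ → ℝ,
      (∀ n, y (n + 3) = y (n + 2) - FF p (y n)) → (∀ i ≤ 2, |y i| < δ) → ∀ n, |y n| < ε := by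
  have hsm := s_mem hs h0
  have hs1 : s ≤ 618033989 / 1000000000 := by
    have := hsm.2; simp only [Iv.S, sI] at this; push_cast at this; linarith
  have hs2 : 618033988 / 1000000000 ≤ s := by
    have := hsm.1; simp only [Iv.S, sI] at this; push_cast at this; linarith
  have hp0 : 0 < p := by linarith
  have hp1 : p < 1 := by linarith
  set e := s - p with he
  have he0 : 0 ≤ e := by rw [he]; linarith
  have he1 : e ≤ 1181 / 10000 := by rw [he]; linarith
  -- the radius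
  set r : ℝ := min (ε / 2) (1 / 40000) with hr
  have hr0 : 0 < r := lt_min (by linarith) (by norm_num)
  have hr1 : r ≤ 1 / 40000 := min_le_right _ _
  have hre : r < ε := (min_le_left _ _).trans_lt (by linarith)
  -- continuity of the Lyapunov function at the origin
  have hcont : Continuous (fun w : ℝ × ℝ × ℝ => VW s e w.1 w.2.1 w.2.2) := by
    unfold VW VV; fun_prop
  have hV0 : VW s e 0 0 0 = 0 := by unfold VW VV; ring
  have hη : 0 < r ^ 2 / 400 := by positivity
  have hc0 := Metric.continuous_iff.mp hcont (0, 0, 0) (r ^ 2 / 400) hη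
  obtain ⟨δ0, hδ0, hδ⟩ := hc0
  refine ⟨min δ0 r, lt_min hδ0 hr0, fun y hy hin n => ?_⟩
  have hinit : VW s e (y 0) (y 1) (y 2) < r ^ 2 / 400 := by
    have hd : dist ((y 0, y 1, y 2) : ℝ × ℝ × ℝ) (0, 0, 0) < δ0 := by
      rw [Prod.dist_eq, Prod.dist_eq]
      simp only [Real.dist_eq, sub_zero]
      exact max_lt ((hin 0 (by norm_num)).trans_le (min_le_left _ _))
        (max_lt ((hin 1 (by norm_num)).trans_le (min_le_left _ _))
          ((hin 2 (by norm_num)).trans_le (min_le_left _ _)))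
    have := hδ (y 0, y 1, y 2) hd
    simp only [Real.dist_eq, hV0, sub_zero] at this
    exact (le_abs_self _).trans_lt this
  -- coercivity on windows
  have hcoer : ∀ a b c : ℝ, |a| ≤ 1 / 10000 → |b| ≤ 1 / 10000 → |c| ≤ 1 / 10000 →
      VW s e a b c < r ^ 2 / 400 → |c| < r := by
    intro a b c ha hb hc hV
    have ha' := abs_le.mp ha
    have hb' := abs_le.mp hb
    have hc' := abs_le.mp hc
    have hsb : |s * b| ≤ 1 / 10000 := by
      rw [abs_mul, abs_of_pos h0]; nlinarith [abs_nonneg b]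
    have hsa : |s * a| ≤ 1 / 10000 := by
      rw [abs_mul, abs_of_pos h0]; nlinarith [abs_nonneg a]
    have hsb' := abs_le.mp hsb
    have hsa' := abs_le.mp hsa
    have hu : |c + s * b| ≤ 1 / 2000 := by rw [abs_le]; constructor <;> linarith
    have hv : |b + s * a| ≤ 1 / 2000 := by rw [abs_le]; constructor <;> linarith
    have hh : |c - (1 + s) * b + a| ≤ 1 / 2000 := by rw [abs_le]; constructor <;> nlinarith
    have hco := V_coercive (s := s) (e := e) (by linarith) (by linarith) he0 he1 hu hv hh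
    have hVW : VV s e (c + s * b) (b + s * a) (c - (1 + s) * b + a) < r ^ 2 / 400 := hV
    have hcb : c ^ 2 ≤ 4 * ((c + s * b) ^ 2 + (b + s * a) ^ 2 + (c - (1 + s) * b + a) ^ 2) := by
      set u := c + s * b with hu_def
      set v := b + s * a with hv_def
      set w := c - (1 + s) * b + a with hw_def
      have ha3 : (3 - s) * a = (1 + 2 * s) * v - u + w := by
        rw [hu_def, hv_def, hw_def]; linear_combination (-2 * a) * hs
      have hc3 : c = u - s * v + s ^ 2 * a := by rw [hu_def, hv_def]; ring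
      have hA : ((3 - s) * a) ^ 2 ≤ 3 * ((1 + 2 * s) ^ 2 * v ^ 2 + u ^ 2 + w ^ 2) := by
        rw [ha3]
        nlinarith [sq_nonneg ((1 + 2 * s) * v + u), sq_nonneg ((1 + 2 * s) * v - w),
          sq_nonneg (u + w)]
      have hB : (1 + 2 * s) ^ 2 ≤ 501 / 100 := by nlinarith
      have hA2 : a ^ 2 * (56 / 10) ≤ 3 * (501 / 100 * v ^ 2 + u ^ 2 + w ^ 2) := by
        have h3s : 56 / 10 ≤ (3 - s) ^ 2 := by nlinarith
        have := mul_le_mul_of_nonneg_right h3s (sq_nonneg a)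
        have := mul_le_mul_of_nonneg_right hB (sq_nonneg v)
        nlinarith
      have hs4 : (s ^ 2) ^ 2 ≤ 15 / 100 := by
        have : s ^ 2 ≤ 382 / 1000 := by linarith
        nlinarith [sq_nonneg s]
      have hs22 : s ^ 2 ≤ 382 / 1000 := by linarith
      have hC : c ^ 2 ≤ 3 * (u ^ 2 + s ^ 2 * v ^ 2 + (s ^ 2) ^ 2 * a ^ 2) := by
        rw [hc3]
        nlinarith [sq_nonneg (u + s * v), sq_nonneg (u - s ^ 2 * a),
          sq_nonneg (s * v + s ^ 2 * a)]
      have m1 := mul_le_mul_of_nonneg_right hs22 (sq_nonneg v)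
      have m2 := mul_le_mul_of_nonneg_right hs4 (sq_nonneg a)
      nlinarith [sq_nonneg u, sq_nonneg v, sq_nonneg w]
    have h1 : c ^ 2 < r ^ 2 := by nlinarith
    exact abs_lt_of_sq_lt_sq h1 hr0.le
  have hall : ∀ n, |y n| < r ∧ |y (n + 1)| < r ∧ |y (n + 2)| < r ∧
      VW s e (y n) (y (n + 1)) (y (n + 2)) < r ^ 2 / 400 := by
    intro n
    induction n with
    | zero =>
      exact ⟨(hin 0 (by norm_num)).trans_le (min_le_right _ _),
        (hin 1 (by norm_num)).trans_le (min_le_right _ _),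
        (hin 2 (by norm_num)).trans_le (min_le_right _ _), hinit⟩
    | succ n ih =>
      obtain ⟨i1, i2, i3, i4⟩ := ih
      have hlast : |y (n + 3)| ≤ 1 / 10000 := by
        rw [hy n]
        have h1 := abs_sub (y (n + 2)) (FF p (y n))
        have h2 := FF_abs hp0 hp1 (y n)
        linarith
      have hd := decrement hs h0 hp hps (a := y n) (by linarith [(abs_lt.mp i1).1])
        (by linarith [(abs_lt.mp i1).2]) (y (n + 1)) (y (n + 2))
      rw [← hy n] at hd
      have hVn : VW s e (y (n + 1)) (y (n + 2)) (y (n + 3)) < r ^ 2 / 400 := by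
        have : 0 ≤ 20 * (y n) ^ 4 := by positivity
        linarith
      refine ⟨i2, i3, ?_, hVn⟩
      exact hcoer _ _ _ (by linarith) (by linarith) hlast hVn
  exact (hall n).1.trans hre

end Pool.Agent.Helper30.PL
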